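import Mathlib

/-!
# Superadditivity of the configuration volume of hard disks
-/

set_option autoImplicit false

open MeasureTheory Set
open scoped ENNReal Nat

namespace Pool.Agent.H53.CP

/-- configurations in `Λ` with mutual distances at least `α`, indexed by `ι` -/
def Cf (α : ℝ) (Λ : Set (Fin 2 → ℝ)) (ι : Type) : Set (ι → Fin 2 → ℝ) :=
  {x | (∀ i, x i ∈ Λ) ∧ ∀ i j, i ≠ j → α ^ 2 ≤ ∑ k, (x i k - x j k) ^ 2}

/-- the partition function -/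
noncomputable def z (α : ℝ) (Λ : Set (Fin 2 → ℝ)) (n : ℕ) : ℝ≥0∞ :=
  ((n ! : ℕ) : ℝ≥0∞)⁻¹ * volume (Cf α Λ (Fin n))

theorem Cf_meas (α : ℝ) {Λ : Set (Fin 2 → ℝ)} (hΛ : MeasurableSet Λ) (ι : Type) [Fintype ι] :
    MeasurableSet (Cf α Λ ι) := by
  have h1 : Cf α Λ ι = (⋂ i, (fun x : ι → Fin 2 → ℝ => x i) ⁻¹' Λ) ∩
      ⋂ i, ⋂ j, ⋂ (_ : i ≠ j), {x : ι → Fin 2 → ℝ | α ^ 2 ≤ ∑ k, (x i k - x j k) ^ 2} := by
    ext x
    simp [Cf]
  rw [h1]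
  refine MeasurableSet.inter (MeasurableSet.iInter fun i => measurable_pi_apply i hΛ) ?_
  refine MeasurableSet.iInter fun i => MeasurableSet.iInter fun j => MeasurableSet.iInter fun _ => ?_
  refine measurableSet_le measurable_const ?_
  fun_prop

theorem vol_card (α : ℝ) {Λ : Set (Fin 2 → ℝ)} (ι : Type) [Fintype ι] {n : ℕ}
    (hn : Fintype.card ι = n) :
    volume (Cf α Λ ι) = volume (Cf α Λ (Fin n)) := by
  obtain ⟨e⟩ : Nonempty (Fin n ≃ ι) := ⟨(Fintype.equivFinOfCardEq hn).symm⟩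
  have hp := volume_measurePreserving_piCongrLeft (fun _ : ι => (Fin 2 → ℝ)) e
  rw [← hp.measure_preimage_equiv]
  congr 1
  ext x
  simp only [Cf, mem_preimage, mem_ofPred_eq]
  have hx : ∀ i, (MeasurableEquiv.piCongrLeft (fun _ : ι => (Fin 2 → ℝ)) e x) i = x (e.symm i) := by
    intro i
    rw [MeasurableEquiv.coe_piCongrLeft]
    have := Equiv.piCongrLeft_apply_apply (fun _ : ι => (Fin 2 → ℝ)) e x (e.symm i)
    rwa [e.apply_symm_apply] at this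
  constructor
  · rintro ⟨h1, h2⟩
    refine ⟨fun i => ?_, fun i j hij => ?_⟩
    · have := h1 (e i)
      rwa [hx, e.symm_apply_apply] at this
    · have := h2 (e i) (e j) (fun h => hij (e.injective h))
      rwa [hx, hx, e.symm_apply_apply, e.symm_apply_apply] at this
  · rintro ⟨h1, h2⟩
    refine ⟨fun i => ?_, fun i j hij => ?_⟩
    · rw [hx]; exact h1 _
    · rw [hx, hx]; exact h2 _ _ (fun h => hij (e.symm.injective h))

/-- two separated regions -/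
theorem z_mul_le {α : ℝ} (hα : 0 < α) {Λ₁ Λ₂ : Set (Fin 2 → ℝ)} (h₁ : MeasurableSet Λ₁)
    (h₂ : MeasurableSet Λ₂) (hs : ∀ x ∈ Λ₁, ∀ y ∈ Λ₂, α ^ 2 ≤ ∑ k, (x k - y k) ^ 2) (n₁ n₂ : ℕ) :
    z α Λ₁ n₁ * z α Λ₂ n₂ ≤ z α (Λ₁ ∪ Λ₂) (n₁ + n₂) := by
  classical
  have hdis : ∀ x, x ∈ Λ₁ → x ∈ Λ₂ → False := by
    intro x hx hx'
    have := hs x hx x hx'
    simp at this
    linarith
  set T : Finset (Finset (Fin (n₁ + n₂))) := Finset.powersetCard n₁ Finset.univ with hT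
  set F : Finset (Fin (n₁ + n₂)) → Set (Fin (n₁ + n₂) → Fin 2 → ℝ) := fun S =>
    (MeasurableEquiv.piEquivPiSubtypeProd (fun _ : Fin (n₁ + n₂) => (Fin 2 → ℝ)) (fun i => i ∈ S)) ⁻¹'
      (Cf α Λ₁ {i // i ∈ S} ×ˢ Cf α Λ₂ {i // ¬ i ∈ S}) with hF
  have hFmem : ∀ S x, x ∈ F S ↔ ((∀ i, i ∈ S → x i ∈ Λ₁) ∧
      ∀ i j, i ∈ S → j ∈ S → i ≠ j → α ^ 2 ≤ ∑ k, (x i k - x j k) ^ 2) ∧
      ((∀ i, i ∉ S → x i ∈ Λ₂) ∧
      ∀ i j, i ∉ S → j ∉ S → i ≠ j → α ^ 2 ≤ ∑ k, (x i k - x j k) ^ 2) := by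
    intro S x
    change ((fun i : {i // i ∈ S} => x i) ∈ Cf α Λ₁ {i // i ∈ S} ∧
      (fun i : {i // ¬ i ∈ S} => x i) ∈ Cf α Λ₂ {i // ¬ i ∈ S}) ↔ _
    simp only [Cf, mem_ofPred_eq, Subtype.forall, ne_eq, Subtype.mk.injEq]
    constructor
    · rintro ⟨⟨h1, h2⟩, h3, h4⟩
      exact ⟨⟨h1, fun i j hi hj hij => h2 i hi j hj hij⟩, h3, fun i j hi hj hij => h4 i hi j hj hij⟩
    · rintro ⟨⟨h1, h2⟩, h3, h4⟩
      exact ⟨⟨h1, fun i hi j hj hij => h2 i j hi hj hij⟩, h3, fun i hi j hj hij => h4 i j hi hj hij⟩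
  have hFm : ∀ S, MeasurableSet (F S) := fun S =>
    (MeasurableEquiv.measurable _) ((Cf_meas α h₁ _).prod (Cf_meas α h₂ _))
  have hFv : ∀ S ∈ T, volume (F S) = volume (Cf α Λ₁ (Fin n₁)) * volume (Cf α Λ₂ (Fin n₂)) := by
    intro S hS
    have hc : S.card = n₁ := (Finset.mem_powersetCard.mp hS).2
    have hp := volume_preserving_piEquivPiSubtypeProd (fun _ : Fin (n₁ + n₂) => (Fin 2 → ℝ))
      (fun i => i ∈ S)
    rw [hF]
    simp only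
    rw [hp.measure_preimage_equiv, Measure.volume_eq_prod, Measure.prod_prod]
    congr 1
    · exact @vol_card α Λ₁ _ (Subtype.fintype fun i => i ∈ S) _ (by
        rw [Fintype.card_subtype]; simp [hc])
    · exact @vol_card α Λ₂ _ (Subtype.fintype fun i => ¬ i ∈ S) _ (by
        rw [Fintype.card_subtype, Finset.filter_not, Finset.card_univ_diff]; simp [hc])
  have hFd : (T : Set (Finset (Fin (n₁ + n₂)))).PairwiseDisjoint F := by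
    intro S _ S' _ hne
    refine disjoint_left.mpr fun x hx hx' => hne ?_
    rw [hFmem] at hx hx'
    ext i
    constructor
    · intro hi
      by_contra hi'
      exact hdis _ (hx.1.1 i hi) (hx'.2.1 i hi')
    · intro hi
      by_contra hi'
      exact hdis _ (hx'.1.1 i hi) (hx.2.1 i hi')
  have hsub : (⋃ S ∈ T, F S) ⊆ Cf α (Λ₁ ∪ Λ₂) (Fin (n₁ + n₂)) := by
    intro x hx
    simp only [mem_iUnion] at hx
    obtain ⟨S, -, hx⟩ := hx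
    rw [hFmem] at hx
    obtain ⟨⟨a1, a2⟩, b1, b2⟩ := hx
    refine ⟨fun i => ?_, fun i j hij => ?_⟩
    · by_cases hi : i ∈ S
      · exact Or.inl (a1 i hi)
      · exact Or.inr (b1 i hi)
    · by_cases hi : i ∈ S <;> by_cases hj : j ∈ S
      · exact a2 i j hi hj hij
      · exact hs _ (a1 i hi) _ (b1 j hj)
      · have := hs _ (a1 j hj) _ (b1 i hi)
        refine this.trans (le_of_eq (Finset.sum_congr rfl fun k _ => by ring))
      · exact b2 i j hi hj hij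
  have hcount : T.card = (n₁ + n₂).choose n₁ := by
    rw [hT, Finset.card_powersetCard]
    simp
  have hmain : ((n₁ + n₂).choose n₁ : ℝ≥0∞) *
      (volume (Cf α Λ₁ (Fin n₁)) * volume (Cf α Λ₂ (Fin n₂))) ≤
      volume (Cf α (Λ₁ ∪ Λ₂) (Fin (n₁ + n₂))) := by
    calc ((n₁ + n₂).choose n₁ : ℝ≥0∞) *
        (volume (Cf α Λ₁ (Fin n₁)) * volume (Cf α Λ₂ (Fin n₂)))
        = ∑ S ∈ T, volume (F S) := by
          rw [Finset.sum_congr rfl hFv, Finset.sum_const, hcount, nsmul_eq_mul]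
      _ = volume (⋃ S ∈ T, F S) := (measure_biUnion_finset hFd fun S _ => hFm S).symm
      _ ≤ _ := measure_mono hsub
  have hfac : ((n₁ ! : ℕ) : ℝ≥0∞)⁻¹ * ((n₂ ! : ℕ) : ℝ≥0∞)⁻¹ =
      (((n₁ + n₂)! : ℕ) : ℝ≥0∞)⁻¹ * ((n₁ + n₂).choose n₁ : ℝ≥0∞) := by
    have h0 : (n₁ + n₂).choose n₁ * n₁ ! * n₂ ! = (n₁ + n₂)! := by
      have := Nat.choose_mul_factorial_mul_factorial (Nat.le_add_right n₁ n₂)
      rwa [Nat.add_sub_cancel_left] at this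
    have h1 : (((n₁ + n₂)! : ℕ) : ℝ≥0∞) = ((n₁ + n₂).choose n₁ : ℝ≥0∞) * ((n₁ ! : ℕ) : ℝ≥0∞) *
        ((n₂ ! : ℕ) : ℝ≥0∞) := by
      rw [← h0]; push_cast; ring
    have p0 : ((n₁ + n₂).choose n₁ : ℝ≥0∞) ≠ 0 := by
      exact_mod_cast (Nat.choose_pos (Nat.le_add_right _ _)).ne'
    have p1 : ((n₁ ! : ℕ) : ℝ≥0∞) ≠ 0 := by exact_mod_cast (Nat.factorial_pos _).ne'
    have p2 : ((n₂ ! : ℕ) : ℝ≥0∞) ≠ 0 := by exact_mod_cast (Nat.factorial_pos _).ne'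
    have t0 : ((n₁ + n₂).choose n₁ : ℝ≥0∞) ≠ ⊤ := ENNReal.natCast_ne_top _
    have t1 : ((n₁ ! : ℕ) : ℝ≥0∞) ≠ ⊤ := ENNReal.natCast_ne_top _
    have t2 : ((n₂ ! : ℕ) : ℝ≥0∞) ≠ ⊤ := ENNReal.natCast_ne_top _
    rw [h1, ENNReal.mul_inv (Or.inr t2) (Or.inr p2), ENNReal.mul_inv (Or.inl p0) (Or.inl t0)]
    calc _ = (((n₁ + n₂).choose n₁ : ℝ≥0∞)⁻¹ * ((n₁ + n₂).choose n₁ : ℝ≥0∞)) *
        (((n₁ ! : ℕ) : ℝ≥0∞)⁻¹ * ((n₂ ! : ℕ) : ℝ≥0∞)⁻¹) := by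
          rw [ENNReal.inv_mul_cancel p0 t0, one_mul]
      _ = _ := by ring
  calc z α Λ₁ n₁ * z α Λ₂ n₂
      = (((n₁ ! : ℕ) : ℝ≥0∞)⁻¹ * ((n₂ ! : ℕ) : ℝ≥0∞)⁻¹) *
        (volume (Cf α Λ₁ (Fin n₁)) * volume (Cf α Λ₂ (Fin n₂))) := by
        unfold z; ring
    _ = (((n₁ + n₂)! : ℕ) : ℝ≥0∞)⁻¹ * (((n₁ + n₂).choose n₁ : ℝ≥0∞) *
        (volume (Cf α Λ₁ (Fin n₁)) * volume (Cf α Λ₂ (Fin n₂)))) := by
        rw [hfac]; ring
    _ ≤ _ := by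
        unfold z
        exact mul_le_mul_right hmain _

theorem z_mono (α : ℝ) {Λ Λ' : Set (Fin 2 → ℝ)} (h : Λ ⊆ Λ') (n : ℕ) : z α Λ n ≤ z α Λ' n := by
  unfold z
  refine mul_le_mul_right (measure_mono ?_) _
  rintro x ⟨h1, h2⟩
  exact ⟨fun i => h (h1 i), h2⟩

theorem z_empty (α : ℝ) : z α ∅ 0 = 1 := by
  unfold z
  have : Cf α ∅ (Fin 0) = univ := by
    ext x
    simp [Cf]
  rw [this]
  simp [volume_pi, Measure.pi_univ]

theorem z_translate (α : ℝ) {Λ : Set (Fin 2 → ℝ)} (v : Fin 2 → ℝ) (n : ℕ) :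
    z α {y | y - v ∈ Λ} n = z α Λ n := by
  unfold z
  congr 1
  have : Cf α {y | y - v ∈ Λ} (Fin n) =
      (fun x : Fin n → Fin 2 → ℝ => x + fun _ => -v) ⁻¹' (Cf α Λ (Fin n)) := by
    ext x
    simp [Cf, sub_eq_add_neg]
  rw [this]
  exact measure_preimage_add_right volume _ _

/-- many separated regions -/
theorem z_prod_le {α : ℝ} (hα : 0 < α) {κ : Type} (T : Finset κ) (Λ : κ → Set (Fin 2 → ℝ))
    (hm : ∀ c, MeasurableSet (Λ c))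
    (hs : ∀ c c', c ≠ c' → ∀ x ∈ Λ c, ∀ y ∈ Λ c', α ^ 2 ≤ ∑ k, (x k - y k) ^ 2) (n : κ → ℕ) :
    ∏ c ∈ T, z α (Λ c) (n c) ≤ z α (⋃ c ∈ T, Λ c) (∑ c ∈ T, n c) := by
  classical
  induction T using Finset.induction_on with
  | empty => simp [z_empty]
  | insert c T hc ih =>
    rw [Finset.prod_insert hc, Finset.sum_insert hc]
    have hU : (⋃ c' ∈ insert c T, Λ c') = Λ c ∪ ⋃ c' ∈ T, Λ c' := by
      ext x; simp
    rw [hU]
    refine (mul_le_mul_right ih _).trans ?_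
    refine z_mul_le hα (hm c) (Finset.measurableSet_biUnion _ fun c' _ => hm c') ?_ _ _
    intro x hx y hy
    simp only [mem_iUnion] at hy
    obtain ⟨c', hc', hy⟩ := hy
    exact hs c c' (fun h => hc (h ▸ hc')) x hx y hy

end Pool.Agent.H53.CP
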