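import Pool.Agent.H96.CP.Stm2
import Pool.Agent.H53.CP.Super

/-!
# Project CP: midpoint convexity of the free energy (`S_cvx`)
-/

set_option autoImplicit false

open Real Set MeasureTheory Metric Filter Topology
open scoped ENNReal Nat

namespace Pool.Agent.H53.CP

open Pool.Agent.K4H96.HS (Box)

/-- the index of a cell in the direction `k` -/
def idx {m : ℕ} (c : Fin m × Fin m) (k : Fin 2) : ℕ := if k = 0 then (c.1 : ℕ) else (c.2 : ℕ)

theorem idx_lt {m : ℕ} (c : Fin m × Fin m) (k : Fin 2) : idx c k < m := by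
  unfold idx
  split_ifs
  · exact c.1.2
  · exact c.2.2

theorem idx_ne {m : ℕ} {c c' : Fin m × Fin m} (h : c ≠ c') : ∃ k, idx c k ≠ idx c' k := by
  by_contra hcon
  push Not at hcon
  apply h
  have h0 := hcon 0
  have h1 := hcon 1
  simp only [idx] at h0 h1
  refine Prod.ext (Fin.ext ?_) (Fin.ext ?_)
  · simpa using h0
  · simpa using h1

theorem box_meas (L : ℝ) : MeasurableSet (Box 2 L) := by
  have : Box 2 L = Set.pi univ fun _ => Icc (0:ℝ) L := by
    ext x; simp only [Box, Set.mem_pi, mem_univ, true_imp_iff]; rfl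
  rw [this]
  exact MeasurableSet.univ_pi fun _ => measurableSet_Icc

theorem z_box_ne_top (α L : ℝ) (n : ℕ) : z α (Box 2 L) n ≠ ⊤ := by
  unfold z
  refine ENNReal.mul_ne_top (ENNReal.inv_ne_top.mpr ?_) ?_
  · exact_mod_cast (Nat.factorial_pos n).ne'
  · have hB : Box 2 L = Set.pi univ fun _ => Icc (0:ℝ) L := by
      ext x; simp only [Box, Set.mem_pi, mem_univ, true_imp_iff]; rfl
    have hc : IsCompact (Set.pi univ fun _ : Fin n => Box 2 L) := by
      rw [hB]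
      exact isCompact_univ_pi fun _ => isCompact_univ_pi fun _ => isCompact_Icc
    refine ne_top_of_le_ne_top hc.measure_lt_top.ne (measure_mono ?_)
    rintro x ⟨h1, -⟩
    exact fun i _ => h1 i

theorem grid {α ℓ : ℝ} (hα : 0 < α) (hℓ : 0 ≤ ℓ) (m : ℕ) (n : Fin m × Fin m → ℕ) :
    ∏ c, z α (Box 2 ℓ) (n c) ≤ z α (Box 2 (m * (ℓ + α))) (∑ c, n c) := by
  set v : Fin m × Fin m → Fin 2 → ℝ := fun c k => (idx c k : ℝ) * (ℓ + α) with hv
  set Λ : Fin m × Fin m → Set (Fin 2 → ℝ) := fun c => {y | y - v c ∈ Box 2 ℓ} with hΛ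
  have hmem : ∀ c y, y ∈ Λ c ↔ ∀ k, (idx c k : ℝ) * (ℓ + α) ≤ y k ∧
      y k ≤ (idx c k : ℝ) * (ℓ + α) + ℓ := by
    intro c y
    simp only [hΛ, hv, Box, mem_ofPred_eq, mem_Icc, Pi.sub_apply]
    refine forall_congr' fun k => ?_
    constructor
    · rintro ⟨h1, h2⟩; constructor <;> linarith
    · rintro ⟨h1, h2⟩; constructor <;> linarith
  have hm : ∀ c, MeasurableSet (Λ c) := fun c => by
    have : Measurable fun y : Fin 2 → ℝ => y - v c := measurable_id.sub_const _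
    exact this (box_meas ℓ)
  have hs : ∀ c c', c ≠ c' → ∀ x ∈ Λ c, ∀ y ∈ Λ c', α ^ 2 ≤ ∑ k, (x k - y k) ^ 2 := by
    intro c c' hcc x hx y hy
    rw [hmem] at hx hy
    obtain ⟨k, hk⟩ := idx_ne hcc
    have h1 : α ^ 2 ≤ (x k - y k) ^ 2 := by
      rcases lt_or_gt_of_ne hk with h | h
      · have h' : (idx c k : ℝ) + 1 ≤ idx c' k := by exact_mod_cast h
        have := (hx k).2
        have := (hy k).1
        have h2 : α ≤ y k - x k := by nlinarith
        nlinarith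
      · have h' : (idx c' k : ℝ) + 1 ≤ idx c k := by exact_mod_cast h
        have := (hx k).1
        have := (hy k).2
        have h2 : α ≤ x k - y k := by nlinarith
        nlinarith
    exact h1.trans (Finset.single_le_sum (f := fun k => (x k - y k) ^ 2)
      (fun _ _ => sq_nonneg _) (Finset.mem_univ k))
  have h1 := z_prod_le hα Finset.univ Λ hm hs n
  have h2 : ∀ c, z α (Λ c) (n c) = z α (Box 2 ℓ) (n c) := fun c => z_translate α (v c) (n c)
  rw [Finset.prod_congr rfl fun c _ => h2 c] at h1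
  refine h1.trans (z_mono α ?_ _)
  intro y hy
  simp only [mem_iUnion, Finset.mem_univ, exists_prop, true_and] at hy
  obtain ⟨c, hc⟩ := hy
  rw [hmem] at hc
  intro k
  have hi : (idx c k : ℝ) + 1 ≤ m := by exact_mod_cast idx_lt c k
  obtain ⟨h3, h4⟩ := hc k
  constructor
  · have : (0:ℝ) ≤ (idx c k : ℝ) * (ℓ + α) := by positivity
    linarith
  · nlinarith

open Pool.Agent.H96.HD

theorem Z_eq_z (a L : ℝ) (N : ℕ) : Z a L N = (z (2 * a) (Box 2 L) N).toReal := by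
  unfold Z z
  rw [ENNReal.toReal_mul, ENNReal.toReal_inv, ENNReal.toReal_natCast]
  rfl

theorem Z_grid {a ℓ : ℝ} (ha : 0 < a) (hℓ : 0 ≤ ℓ) {m K₁ K₂ : ℕ} (hK : K₁ + K₂ = m * m)
    (n₁ n₂ : ℕ) :
    Z a ℓ n₁ ^ K₁ * Z a ℓ n₂ ^ K₂ ≤ Z a (m * (ℓ + 2 * a)) (K₁ * n₁ + K₂ * n₂) := by
  classical
  obtain ⟨T, -, hT⟩ := Finset.exists_subset_card_eq
    (s := (Finset.univ : Finset (Fin m × Fin m))) (n := K₁) (by simp; omega)
  set n : Fin m × Fin m → ℕ := fun c => if c ∈ T then n₁ else n₂ with hn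
  have hTc : (Finset.univ.filter fun c => c ∉ T).card = K₂ := by
    have h1 := Finset.card_compl_add_card T
    have h2 : Tᶜ = Finset.univ.filter fun c => c ∉ T := by
      ext; simp
    rw [← h2]
    simp only [Fintype.card_prod, Fintype.card_fin] at h1
    omega
  have hTf : (Finset.univ.filter fun c => c ∈ T) = T := by ext; simp
  have h := grid (α := 2 * a) (by positivity) hℓ m n
  have hs : ∑ c, n c = K₁ * n₁ + K₂ * n₂ := by
    rw [hn, Finset.sum_ite, Finset.sum_const, Finset.sum_const, hTf, hT, hTc]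
    simp
  have hp : ∏ c, z (2 * a) (Box 2 ℓ) (n c) =
      z (2 * a) (Box 2 ℓ) n₁ ^ K₁ * z (2 * a) (Box 2 ℓ) n₂ ^ K₂ := by
    have : ∀ c, z (2 * a) (Box 2 ℓ) (n c) =
        if c ∈ T then z (2 * a) (Box 2 ℓ) n₁ else z (2 * a) (Box 2 ℓ) n₂ := by
      intro c
      simp only [hn]
      split_ifs <;> rfl
    rw [Finset.prod_congr rfl fun c _ => this c, Finset.prod_ite, Finset.prod_const,
      Finset.prod_const, hTf, hT, hTc]
  rw [hs, hp] at h
  have h' := ENNReal.toReal_mono (z_box_ne_top _ _ _) h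
  rw [ENNReal.toReal_mul, ENNReal.toReal_pow, ENNReal.toReal_pow] at h'
  rw [Z_eq_z, Z_eq_z, Z_eq_z]
  exact h'

theorem cvx : Pool.Agent.H96.CP.S_cvx := by
  intro a v₁ v₂ f₁ f₂ f₃ ha hv₁ hv₁₂ hf₁ hf₂ hf₃
  have hv1 : 0 < v₁ := lt_trans (by positivity) hv₁
  have hv2 : 0 < v₂ := hv1.trans hv₁₂
  set t : ℕ → ℝ := fun k => ((k : ℝ) + 1) ^ 2 with ht
  have htpos : ∀ k, 0 < t k := fun k => by simp only [ht]; positivity
  have htt : Tendsto t atTop atTop := by
    have h1 : Tendsto (fun k : ℕ => (k : ℝ) + 1) atTop atTop :=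
      tendsto_atTop_add_const_right _ _ tendsto_natCast_atTop_atTop
    exact (tendsto_pow_atTop (by norm_num)).comp h1
  set θ : ℝ := v₁ / (v₁ + v₂) with hθ
  have hθ0 : 0 < θ := by positivity
  have hθ1 : θ < 1 := by
    rw [hθ, div_lt_one (by positivity)]; linarith
  -- the numbers
  set n₁ : ℕ → ℕ := fun k => ⌊1 / v₁ * t k⌋₊ with hn₁
  set n₂ : ℕ → ℕ := fun k => ⌊1 / v₂ * t k⌋₊ with hn₂
  set K₁ : ℕ → ℕ := fun k => ⌊θ * t k⌋₊ with hK₁
  set K₂ : ℕ → ℕ := fun k => (k + 1) * (k + 1) - K₁ k with hK₂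
  have hKle : ∀ k, K₁ k ≤ (k + 1) * (k + 1) := by
    intro k
    have h1 : θ * t k ≤ (((k + 1) * (k + 1) : ℕ) : ℝ) := by
      push_cast
      simp only [ht]
      nlinarith [htpos k]
    exact Nat.floor_le_of_le h1
  have hKsum : ∀ k, K₁ k + K₂ k = (k + 1) * (k + 1) := fun k => Nat.add_sub_cancel' (hKle k)
  have floor_lim : ∀ c : ℝ, 0 ≤ c → Tendsto (fun k => ((⌊c * t k⌋₊ : ℕ) : ℝ) / t k) atTop (𝓝 c) :=
    fun c hc => (tendsto_nat_floor_mul_div_atTop hc).comp htt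
  have floor_top : ∀ c : ℝ, 0 < c → Tendsto (fun k => ⌊c * t k⌋₊) atTop atTop :=
    fun c hc => tendsto_nat_floor_atTop.comp (htt.const_mul_atTop hc)
  have l1 : Tendsto (fun k => (n₁ k : ℝ) / t k) atTop (𝓝 (1 / v₁)) := floor_lim _ (by positivity)
  have l2 : Tendsto (fun k => (n₂ k : ℝ) / t k) atTop (𝓝 (1 / v₂)) := floor_lim _ (by positivity)
  have l3 : Tendsto (fun k => (K₁ k : ℝ) / t k) atTop (𝓝 θ) := floor_lim _ hθ0.le
  have l4 : Tendsto (fun k => (K₂ k : ℝ) / t k) atTop (𝓝 (1 - θ)) := by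
    refine (l3.const_sub 1).congr fun k => ?_
    have h1 : (K₁ k : ℝ) + K₂ k = ((k : ℝ) + 1) * (k + 1) := by exact_mod_cast hKsum k
    have h2 : t k = ((k : ℝ) + 1) * (k + 1) := by simp only [ht]; ring
    have h3 : (K₂ k : ℝ) = t k - K₁ k := by rw [h2]; linarith
    rw [h3, sub_div, div_self (htpos k).ne']
  have t1 : Tendsto n₁ atTop atTop := floor_top _ (by positivity)
  have t2 : Tendsto n₂ atTop atTop := floor_top _ (by positivity)
  have t3 : Tendsto K₁ atTop atTop := floor_top _ hθ0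
  -- the small squares
  set ℓ : ℕ → ℝ := fun k => (k : ℝ) + 1 with hℓ
  have hℓt : Tendsto ℓ atTop atTop :=
    tendsto_atTop_add_const_right _ _ tendsto_natCast_atTop_atTop
  have hdens : ∀ (n : ℕ → ℕ) (v : ℝ), 0 < v → Tendsto (fun k => (n k : ℝ) / t k) atTop (𝓝 (1 / v)) →
      Tendsto (fun k => ℓ k ^ 2 / n k) atTop (𝓝 v) := by
    intro n v hv h
    have h1 := h.inv₀ (by positivity)
    rw [one_div, inv_inv] at h1
    refine h1.congr fun k => ?_
    rw [inv_div]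
  obtain ⟨p1, g1⟩ := hf₁ n₁ ℓ t1 hℓt (hdens n₁ v₁ hv1 l1)
  obtain ⟨p2, g2⟩ := hf₂ n₂ ℓ t2 hℓt (hdens n₂ v₂ hv2 l2)
  -- the large square
  set N : ℕ → ℕ := fun k => K₁ k * n₁ k + K₂ k * n₂ k with hN
  set L : ℕ → ℝ := fun k => ((k + 1 : ℕ) : ℝ) * (ℓ k + 2 * a) with hL
  have hc0 : θ * (1 / v₁) + (1 - θ) * (1 / v₂) = 2 / (v₁ + v₂) := by
    rw [hθ]; field_simp; ring
  have lN : Tendsto (fun k => (N k : ℝ) / t k ^ 2) atTop (𝓝 (2 / (v₁ + v₂))) := by
    rw [← hc0]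
    refine ((l3.mul l1).add (l4.mul l2)).congr fun k => ?_
    have := (htpos k).ne'
    simp only [hN]
    push_cast
    field_simp
  have lA : Tendsto (fun k => (K₁ k * n₁ k : ℝ) / t k ^ 2) atTop (𝓝 (1 / (v₁ + v₂))) := by
    have hc : θ * (1 / v₁) = 1 / (v₁ + v₂) := by rw [hθ]; field_simp
    rw [← hc]
    refine (l3.mul l1).congr fun k => ?_
    have := (htpos k).ne'
    field_simp
  have lB : Tendsto (fun k => (K₂ k * n₂ k : ℝ) / t k ^ 2) atTop (𝓝 (1 / (v₁ + v₂))) := by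
    have hc : (1 - θ) * (1 / v₂) = 1 / (v₁ + v₂) := by rw [hθ]; field_simp; ring
    rw [← hc]
    refine (l4.mul l2).congr fun k => ?_
    have := (htpos k).ne'
    field_simp
  have tN : Tendsto N atTop atTop := by
    refine tendsto_atTop_mono' atTop ?_ t1
    filter_upwards [t3.eventually_ge_atTop 1] with k hk
    simp only [hN]
    nlinarith [Nat.zero_le (K₂ k * n₂ k), Nat.zero_le (n₁ k)]
  have tL : Tendsto L atTop atTop := by
    refine tendsto_atTop_mono (fun k => ?_) hℓt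
    simp only [hL, hℓ]
    push_cast
    have : (0:ℝ) ≤ k := Nat.cast_nonneg k
    nlinarith
  have lL : Tendsto (fun k => L k ^ 2 / t k ^ 2) atTop (𝓝 1) := by
    have h1 : Tendsto (fun k : ℕ => (1 + 2 * a / ℓ k) ^ 2) atTop (𝓝 ((1 + 0) ^ 2)) :=
      ((hℓt.const_div_atTop (2 * a)).const_add 1).pow 2
    rw [show ((1:ℝ) + 0) ^ 2 = 1 by norm_num] at h1
    refine h1.congr fun k => ?_
    have : (0:ℝ) < (k : ℝ) + 1 := by positivity
    simp only [hL, hℓ, ht]
    push_cast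
    field_simp
  have lLN : Tendsto (fun k => L k ^ 2 / N k) atTop (𝓝 ((v₁ + v₂) / 2)) := by
    have h1 := lL.div lN (by positivity)
    rw [one_div_div] at h1
    refine h1.congr fun k => ?_
    have := (htpos k).ne'
    simp only [Pi.div_apply]
    rw [div_div_div_cancel_right₀ (pow_ne_zero 2 this)]
  obtain ⟨p3, g3⟩ := hf₃ N L tN tL lLN
  have w1 : Tendsto (fun k => (K₁ k * n₁ k : ℝ) / N k) atTop (𝓝 (1 / 2)) := by
    have h1 := lA.div lN (by positivity)
    have hc : 1 / (v₁ + v₂) / (2 / (v₁ + v₂)) = 1 / 2 := by field_simp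
    rw [hc] at h1
    refine h1.congr fun k => ?_
    have := (htpos k).ne'
    simp only [Pi.div_apply]
    rw [div_div_div_cancel_right₀ (pow_ne_zero 2 this)]
  have w2 : Tendsto (fun k => (K₂ k * n₂ k : ℝ) / N k) atTop (𝓝 (1 / 2)) := by
    have h1 := lB.div lN (by positivity)
    have hc : 1 / (v₁ + v₂) / (2 / (v₁ + v₂)) = 1 / 2 := by field_simp
    rw [hc] at h1
    refine h1.congr fun k => ?_
    have := (htpos k).ne'
    simp only [Pi.div_apply]
    rw [div_div_div_cancel_right₀ (pow_ne_zero 2 this)]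
  have hlim := (w1.mul g1).add (w2.mul g2)
  rw [show 1 / 2 * f₁ + 1 / 2 * f₂ = (f₁ + f₂) / 2 by ring] at hlim
  refine le_of_tendsto_of_tendsto g3 hlim ?_
  filter_upwards [p1, p2, p3, t1.eventually_ge_atTop 1, t2.eventually_ge_atTop 1,
    tN.eventually_ge_atTop 1] with k q1 q2 q3 r1 r2 rN
  have hg := Z_grid ha (ℓ := ℓ k) (by simp only [hℓ]; positivity) (hKsum k) (n₁ k) (n₂ k)
  have hlog := Real.log_le_log (mul_pos (pow_pos q1 _) (pow_pos q2 _)) hg
  rw [Real.log_mul (pow_pos q1 _).ne' (pow_pos q2 _).ne', Real.log_pow, Real.log_pow] at hlog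
  have hNpos : (0:ℝ) < N k := by exact_mod_cast rN
  have hn1pos : (0:ℝ) < n₁ k := by exact_mod_cast r1
  have hn2pos : (0:ℝ) < n₂ k := by exact_mod_cast r2
  have e1 : (K₁ k * n₁ k : ℝ) / N k * (-Real.log (Z a (ℓ k) (n₁ k)) / n₁ k) +
      (K₂ k * n₂ k : ℝ) / N k * (-Real.log (Z a (ℓ k) (n₂ k)) / n₂ k) =
      -(K₁ k * Real.log (Z a (ℓ k) (n₁ k)) + K₂ k * Real.log (Z a (ℓ k) (n₂ k))) / N k := by
    field_simp
    ring
  rw [e1]
  refine div_le_div_of_nonneg_right (neg_le_neg ?_) hNpos.le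
  exact hlog

end Pool.Agent.H53.CP
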