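import Pool.Agent.H96.CP.Stm
import Pool.Agent.H96.HD.Struct

/-!
# Project CP: crystal labelling of a square with small defects
-/

set_option autoImplicit false

open Real Set MeasureTheory Metric Filter Topology
open scoped ENNReal Nat ComplexConjugate

namespace Pool.Agent.H53.CP

open Pool.Agent.H96.HD Pool.Agent.H96.CP

/-! ## Sixth roots of unity -/

/-- `e^{iπ/3}` -/
noncomputable abbrev w : ℂ := Pool.Agent.H96.CP.om

theorem w_eq : w = Complex.exp ((π / 3 : ℝ) * Complex.I) := by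
  rw [Complex.exp_mul_I, ← Complex.ofReal_cos, ← Complex.ofReal_sin, Real.cos_pi_div_three,
    Real.sin_pi_div_three]
  apply Complex.ext
  · simp [Pool.Agent.H96.CP.om]
  · simp [Pool.Agent.H96.CP.om]

theorem w_norm : ‖w‖ = 1 := by
  rw [w_eq, Complex.norm_exp_ofReal_mul_I]

theorem w_three : w ^ 3 = -1 := by
  rw [w_eq, ← Complex.exp_nat_mul]
  have : ((3 : ℕ) : ℂ) * ((π / 3 : ℝ) * Complex.I) = π * Complex.I := by
    push_cast; ring
  rw [this, Complex.exp_pi_mul_I]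

theorem w_six : w ^ 6 = 1 := by
  have : w ^ 6 = (w ^ 3) ^ 2 := by ring
  rw [this, w_three]; norm_num

theorem w_two : w ^ 2 = w - 1 := by
  have h3 : √3 * √3 = 3 := Real.mul_self_sqrt (by norm_num)
  apply Complex.ext
  · simp [Pool.Agent.H96.CP.om, pow_two]
    nlinarith
  · simp [Pool.Agent.H96.CP.om, pow_two]
    ring

theorem hdom (m : Fin 6) : Pool.Agent.H96.HD.om m = w ^ (m : ℕ) := by
  rw [w_eq, ← Complex.exp_nat_mul]
  unfold Pool.Agent.H96.HD.om
  congr 1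
  push_cast
  have : ((m : Fin 6) : ℂ) = (((m : ℕ) : ℕ) : ℂ) := rfl
  ring

theorem w_mod (m : ℕ) : w ^ m = w ^ (m % 6) := by
  conv_lhs => rw [← Nat.div_add_mod m 6]
  rw [pow_add, pow_mul, w_six, one_pow, one_mul]

theorem w_pow_norm (m : ℕ) : ‖w ^ m‖ = 1 := by rw [norm_pow, w_norm, one_pow]

/-! ## Local structure -/

variable {k : ℕ} {M : ℝ} {x : Fin k → ℂ}

theorem mem_Kc (hx : ∀ i, x i ∈ Qd M 0) (hs : Sep x) : x ∈ Kc k M := by
  refine ⟨fun i => ?_, hs⟩
  have h := hx i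
  simp only [Qd, Set.mem_ofPred_eq, Complex.zero_re, Complex.zero_im, zero_add] at h
  exact ⟨⟨h.1.1, h.1.2.le⟩, ⟨h.2.1, h.2.2.le⟩⟩

theorem local_hex (hx : x ∈ Kc k M) {τ : ℝ} (hτ : τ < c0) (hτ' : 12 * C1 * τ < √3) (i : Fin k)
    (hi : defect x i ≤ τ) {j : Fin k} (hj : j ∈ nbr x i) (m : ℕ) :
    ∃ l ∈ nbr x i, ‖(x l - x i) - w ^ m * (x j - x i)‖ ≤ 6 * C1 * τ := by
  classical
  have hi0 : defect x i < c0 := lt_of_le_of_lt hi hτ
  have hC := C1_pos
  have h6 := ((stab hx i).2 hi0).1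
  have hrot : ∀ l, ∃ m : Fin 6, l ∈ nbr x i →
      ‖(x l - x i) - w ^ (m : ℕ) * (x j - x i)‖ ≤ 6 * C1 * τ := by
    intro l
    by_cases hl : l ∈ nbr x i
    · obtain ⟨m, hm⟩ := exists_rot hx i hi0 hj hl
      refine ⟨m, fun _ => ?_⟩
      rw [hdom] at hm
      refine hm.trans ?_
      rw [mul_assoc]
      gcongr
    · exact ⟨0, fun h => absurd h hl⟩
  choose g hg using hrot
  have hinj : Set.InjOn g (nbr x i : Set (Fin k)) := by
    intro a ha b hb hab
    by_contra hne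
    have h1 := hg a ha
    have h2 := hg b hb
    rw [hab] at h1
    have h3 : ‖x a - x b‖ ≤ 12 * C1 * τ := by
      have : x a - x b = ((x a - x i) - w ^ (g b : ℕ) * (x j - x i)) -
        ((x b - x i) - w ^ (g b : ℕ) * (x j - x i)) := by ring
      rw [this]
      refine (norm_sub_le _ _).trans ?_
      linarith
    have h4 := hx.2 a b hne
    linarith
  have himg : (nbr x i).image g = Finset.univ := by
    apply Finset.eq_univ_of_card
    rw [Finset.card_image_of_injOn hinj, h6, Fintype.card_fin]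
  have hm : (⟨m % 6, Nat.mod_lt _ (by norm_num)⟩ : Fin 6) ∈ (nbr x i).image g := by
    rw [himg]; exact Finset.mem_univ _
  obtain ⟨l, hl, hlm⟩ := Finset.mem_image.mp hm
  refine ⟨l, hl, ?_⟩
  have := hg l hl
  rw [hlm] at this
  rw [w_mod]
  exact this

theorem nbr_dist (hx : x ∈ Kc k M) {τ : ℝ} (hτ : τ < c0) (i : Fin k)
    (hi : defect x i ≤ τ) {j : Fin k} (hj : j ∈ nbr x i) :
    √3 ≤ ‖x j - x i‖ ∧ ‖x j - x i‖ ≤ √3 + 2 * C1 * τ := by
  have hi0 : defect x i < c0 := lt_of_le_of_lt hi hτ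
  have hC := C1_pos
  have hne : j ≠ i := (mem_nbr.mp hj).1
  refine ⟨hx.2 j i hne, ?_⟩
  obtain ⟨h6, hB⟩ := (stab hx i).2 hi0
  have h1 : π / 6 - al (x j - x i) ≤ C1 * τ := by
    refine le_trans ?_ (hB.trans (by gcongr))
    exact Finset.single_le_sum (f := fun l => π / 6 - al (x l - x i))
      (fun l hl => sub_nonneg.mpr (al_le (hx.2 l i (mem_nbr.mp hl).1))) hj
  have h2 : cos (al (x j - x i)) = ‖x j - x i‖ / 2 := cos_al (nbr_norm hj)
  have h3 : |cos (al (x j - x i)) - cos (π / 6)| ≤ |al (x j - x i) - π / 6| :=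
    Real.abs_cos_sub_cos_le _ _
  rw [Real.cos_pi_div_six, h2] at h3
  have h4 : al (x j - x i) ≤ π / 6 := al_le (hx.2 j i hne)
  rw [abs_of_nonpos (by linarith : al (x j - x i) - π / 6 ≤ 0)] at h3
  have h5 := (abs_le.mp h3).2
  linarith

/-! ## Paths -/

theorem ball_sub {z : ℂ} {p : ℂ} (hp : p ∈ inner 4 M) (hz : ‖z - p‖ ≤ 1) :
    closedBall z 2 ⊆ Qd M 0 := by
  intro y hy
  rw [mem_closedBall, dist_eq_norm] at hy
  have h1 : ‖y - p‖ ≤ 3 := by
    have : y - p = (y - z) + (z - p) := by ring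
    rw [this]
    exact (norm_add_le _ _).trans (by linarith)
  have h2 := abs_le.mp ((Complex.abs_re_le_norm (y - p)).trans h1)
  have h3 := abs_le.mp ((Complex.abs_im_le_norm (y - p)).trans h1)
  rw [Complex.sub_re] at h2
  rw [Complex.sub_im] at h3
  obtain ⟨⟨a1, a2⟩, a3, a4⟩ := hp
  simp only [Qd, Set.mem_ofPred_eq, Complex.zero_re, Complex.zero_im, zero_add]
  refine ⟨⟨?_, ?_⟩, ?_, ?_⟩ <;> linarith

theorem path (hx : x ∈ Kc k M) {τ : ℝ} (hτ0 : 0 ≤ τ) (hτ : τ < c0) (hτ' : 12 * C1 * τ < √3)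
    (hd : ∀ i, closedBall (x i) 2 ⊆ Qd M 0 → defect x i ≤ τ) (i₀ : Fin k) (z₁ : ℂ)
    (h₀ : ∀ m : ℕ, ∃ l ∈ nbr x i₀, ‖(x l - x i₀) - w ^ m * z₁‖ ≤ 8 * (C1 * τ))
    (L : ℕ) (p : ℕ → ℂ) (dir : ℕ → ℕ) (hp0 : p 0 = 0)
    (hp : ∀ t < L, p (t + 1) = p t + w ^ dir t)
    (hin : ∀ t ≤ L, x i₀ + z₁ * p t ∈ inner 4 M) (hL : 11 * (L : ℝ) ^ 2 * (C1 * τ) ≤ 1) :
    ∀ t ≤ L, ∃ i, ‖x i - (x i₀ + z₁ * p t)‖ ≤ 11 * (t : ℝ) ^ 2 * (C1 * τ) ∧
      ∀ m : ℕ, ∃ l ∈ nbr x i, ‖(x l - x i) - w ^ m * z₁‖ ≤ (8 + 6 * t) * (C1 * τ) := by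
  have hC := C1_pos
  have hc : 0 ≤ C1 * τ := by positivity
  intro t
  induction t with
  | zero =>
    intro _
    refine ⟨i₀, ?_, ?_⟩
    · rw [hp0]; simp
    · simpa using h₀
  | succ t ih =>
    intro ht
    obtain ⟨i, hi1, hi2⟩ := ih (by omega)
    obtain ⟨l, hl, hl1⟩ := hi2 (dir t)
    have hlt : t < L := by omega
    have hclose : ‖x l - (x i₀ + z₁ * p (t + 1))‖ ≤ 11 * ((t + 1 : ℕ) : ℝ) ^ 2 * (C1 * τ) := by
      have e : x l - (x i₀ + z₁ * p (t + 1)) = (x i - (x i₀ + z₁ * p t)) +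
          ((x l - x i) - w ^ dir t * z₁) := by
        rw [hp t hlt]; ring
      rw [e]
      refine (norm_add_le _ _).trans ?_
      refine (add_le_add hi1 hl1).trans ?_
      have : (11 * (t : ℝ) ^ 2 + (8 + 6 * t)) ≤ 11 * ((t + 1 : ℕ) : ℝ) ^ 2 := by
        push_cast
        nlinarith [(Nat.cast_nonneg t : (0:ℝ) ≤ t)]
      calc 11 * (t : ℝ) ^ 2 * (C1 * τ) + (8 + 6 * t) * (C1 * τ)
          = (11 * (t : ℝ) ^ 2 + (8 + 6 * t)) * (C1 * τ) := by ring
        _ ≤ 11 * ((t + 1 : ℕ) : ℝ) ^ 2 * (C1 * τ) := by gcongr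
    refine ⟨l, hclose, fun m => ?_⟩
    have hle1 : ‖x l - (x i₀ + z₁ * p (t + 1))‖ ≤ 1 := by
      refine hclose.trans (le_trans ?_ hL)
      have : ((t + 1 : ℕ) : ℝ) ≤ L := by exact_mod_cast ht
      gcongr
    have hdl : defect x l ≤ τ := hd l (ball_sub (hin (t + 1) ht) hle1)
    have hil : i ∈ nbr x l := nbr_symm hl
    obtain ⟨q, hq, hq1⟩ := local_hex hx hτ hτ' l hdl hil (m + 3 + 5 * dir t)
    refine ⟨q, hq, ?_⟩
    have e2 : w ^ (m + 3 + 5 * dir t) * (x i - x l) - w ^ m * z₁ =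
        w ^ (m + 5 * dir t) * ((x l - x i) - w ^ dir t * z₁) := by
      have e3 : w ^ (5 * dir t) * w ^ dir t = 1 := by
        rw [← pow_add, show 5 * dir t + dir t = 6 * dir t by ring, pow_mul, w_six, one_pow]
      have e4 : w ^ (m + 3 + 5 * dir t) = - (w ^ m * w ^ (5 * dir t)) := by
        rw [pow_add, pow_add, w_three]; ring
      rw [e4, pow_add]
      linear_combination (w ^ m * z₁) * e3
    have e6 : (x q - x l) - w ^ m * z₁ = ((x q - x l) - w ^ (m + 3 + 5 * dir t) * (x i - x l)) +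
        (w ^ (m + 3 + 5 * dir t) * (x i - x l) - w ^ m * z₁) := by ring
    rw [e6]
    refine (norm_add_le _ _).trans ?_
    rw [e2, norm_mul, w_pow_norm, one_mul]
    push_cast
    linarith

/-- the straight path -/
theorem straight (hx : x ∈ Kc k M) {τ : ℝ} (hτ0 : 0 ≤ τ) (hτ : τ < c0) (hτ' : 12 * C1 * τ < √3)
    (hd : ∀ i, closedBall (x i) 2 ⊆ Qd M 0 → defect x i ≤ τ) (i₀ : Fin k) (z₁ : ℂ)
    (hz : ‖z₁‖ = √3) (hi₀ : x i₀ ∈ inner 8 M)
    (h₀ : ∀ m : ℕ, ∃ l ∈ nbr x i₀, ‖(x l - x i₀) - w ^ m * z₁‖ ≤ 8 * (C1 * τ))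
    (r m n : ℕ) (hL : 11 * ((m + n : ℕ) : ℝ) ^ 2 * (C1 * τ) ≤ 1)
    (hin : x i₀ + z₁ * (w ^ r * (m + n * w)) ∈ inner 8 M) :
    ∃ i, ‖x i - (x i₀ + z₁ * (w ^ r * (m + n * w)))‖ ≤ 11 * ((m + n : ℕ) : ℝ) ^ 2 * (C1 * τ) := by
  rcases Nat.eq_zero_or_pos (m + n) with h0 | hpos
  · have hm : m = 0 := by omega
    have hn : n = 0 := by omega
    subst hm; subst hn
    exact ⟨i₀, by simp⟩
  set L := m + n with hLdef
  set f : ℕ → ℕ := fun t => t * n / L with hf
  have hf0 : f 0 = 0 := by simp [hf]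
  have hfL : f L = n := by
    simp only [hf]
    exact Nat.mul_div_cancel_left n hpos
  have hfle : ∀ t, f t ≤ t := fun t => by
    simp only [hf]
    refine Nat.div_le_of_le_mul ?_
    rw [mul_comm L t]
    exact Nat.mul_le_mul_left t (by omega)
  have hfs : ∀ t, f (t + 1) = f t ∨ f (t + 1) = f t + 1 := by
    intro t
    have h1 : f t ≤ f (t + 1) := Nat.div_le_div_right (by nlinarith)
    have h2 : f (t + 1) ≤ f t + 1 := by
      simp only [hf]
      rw [← Nat.add_div_right _ hpos]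
      refine Nat.div_le_div_right ?_
      nlinarith [Nat.le_add_left n m]
    omega
  set p : ℕ → ℂ := fun t => w ^ r * (((t : ℂ) - f t) + f t * w) with hpdef
  set dir : ℕ → ℕ := fun t => if f (t + 1) = f t then r else r + 1 with hdir
  have hp0 : p 0 = 0 := by simp [hpdef, hf0]
  have hpL : p L = w ^ r * (m + n * w) := by
    simp only [hpdef, hfL]
    have : ((L : ℕ) : ℂ) = m + n := by rw [hLdef]; push_cast; ring
    rw [this]; ring
  have hp : ∀ t < L, p (t + 1) = p t + w ^ dir t := by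
    intro t _
    by_cases h : f (t + 1) = f t
    · simp only [hpdef, hdir, if_pos h]
      rw [h]
      push_cast
      ring
    · have h' : f (t + 1) = f t + 1 := (hfs t).resolve_left h
      simp only [hpdef, hdir, if_neg h]
      rw [h', pow_succ]
      push_cast
      ring
  have hin' : ∀ t ≤ L, x i₀ + z₁ * p t ∈ inner 4 M := by
    intro t ht
    have hLr : (0:ℝ) < L := by exact_mod_cast hpos
    set s : ℝ := t / L with hs
    have hs0 : 0 ≤ s := by positivity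
    have hs1 : s ≤ 1 := by
      rw [hs, div_le_one hLr]
      exact_mod_cast ht
    set e : ℝ := f t - t * n / L with he
    have he1 : |e| ≤ 1 := by
      have h1 : (f t : ℝ) ≤ t * n / L := by
        have := Nat.cast_div_le (α := ℝ) (m := t * n) (n := L)
        simpa [hf] using this
      have h2 : (t * n / L : ℝ) < f t + 1 := by
        rw [div_lt_iff₀ hLr]
        have h3 : t * n < (f t + 1) * L := by
          simp only [hf]
          have := Nat.lt_mul_div_succ (t * n) hpos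
          linarith
        exact_mod_cast h3
      rw [abs_le]
      constructor <;> [linarith; linarith]
    have key : x i₀ + z₁ * p t = ((1 - s : ℝ) : ℂ) * x i₀ + (s : ℂ) * (x i₀ + z₁ * p L) +
        z₁ * (w ^ r * ((e : ℂ) * (w - 1))) := by
      have hLc : (L : ℂ) ≠ 0 := by exact_mod_cast hLr.ne'
      rw [hpL]
      simp only [hpdef, hs, he]
      push_cast
      have : ((L : ℕ) : ℂ) = m + n := by rw [hLdef]; push_cast; ring
      field_simp
      rw [this]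
      ring
    have hnorm : ‖z₁ * (w ^ r * ((e : ℂ) * (w - 1)))‖ ≤ 2 := by
      rw [norm_mul, norm_mul, norm_mul, w_pow_norm, hz, one_mul, ← w_two, w_pow_norm, mul_one,
        Complex.norm_real, Real.norm_eq_abs]
      have h3 : √3 ≤ 2 := by
        rw [Real.sqrt_le_left (by norm_num)]; norm_num
      nlinarith [abs_nonneg e, Real.sqrt_nonneg 3]
    set q := z₁ * (w ^ r * ((e : ℂ) * (w - 1))) with hq
    have hre := abs_le.mp ((Complex.abs_re_le_norm q).trans hnorm)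
    have him := abs_le.mp ((Complex.abs_im_le_norm q).trans hnorm)
    rw [key]
    rw [← hpL] at hin
    obtain ⟨⟨a1, a2⟩, a3, a4⟩ := hi₀
    obtain ⟨⟨b1, b2⟩, b3, b4⟩ := hin
    set y := x i₀ + z₁ * p L with hy
    have hR : (((1 - s : ℝ) : ℂ) * x i₀ + (s : ℂ) * y + q).re =
        (1 - s) * (x i₀).re + s * y.re + q.re := by
      rw [Complex.add_re, Complex.add_re, Complex.re_ofReal_mul, Complex.re_ofReal_mul]
    have hI : (((1 - s : ℝ) : ℂ) * x i₀ + (s : ℂ) * y + q).im =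
        (1 - s) * (x i₀).im + s * y.im + q.im := by
      rw [Complex.add_im, Complex.add_im, Complex.im_ofReal_mul, Complex.im_ofReal_mul]
    refine ⟨⟨?_, ?_⟩, ?_, ?_⟩
    · rw [hR]; nlinarith
    · rw [hR]; nlinarith
    · rw [hI]; nlinarith
    · rw [hI]; nlinarith
  obtain ⟨i, hi, _⟩ := path hx hτ0 hτ hτ' hd i₀ z₁ h₀ L p dir hp0 hp hin' hL L le_rfl
  rw [hpL] at hi
  exact ⟨i, hi⟩

/-! ## Sectors -/

theorem sector (a b : ℤ) : ∃ r m n : ℕ, ((a : ℂ) + b * w) = w ^ r * (m + n * w) := by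
  have h2 := w_two
  have h3 := w_three
  have h4 : w ^ 4 = -w := by
    have : w ^ 4 = w ^ 3 * w := by ring
    rw [this, h3]; ring
  have h5 : w ^ 5 = 1 - w := by
    have : w ^ 5 = w ^ 3 * w ^ 2 := by ring
    rw [this, h3, h2]; ring
  rcases le_or_gt 0 a with ha | ha
  · rcases le_or_gt 0 b with hb | hb
    · obtain ⟨m, rfl⟩ := Int.eq_ofNat_of_zero_le ha
      obtain ⟨n, rfl⟩ := Int.eq_ofNat_of_zero_le hb
      exact ⟨0, m, n, by simp⟩
    · rcases le_or_gt 0 (a + b) with hs | hs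
      · -- sector between `w^5` and `1`
        obtain ⟨m, hm⟩ := Int.eq_ofNat_of_zero_le (by omega : 0 ≤ -b)
        obtain ⟨n, hn⟩ := Int.eq_ofNat_of_zero_le hs
        refine ⟨5, m, n, ?_⟩
        have hb' : (b : ℂ) = -m := by
          have : b = -(m : ℤ) := by omega
          rw [this]; push_cast; ring
        have ha' : (a : ℂ) = n + m := by
          have : a = (n : ℤ) + m := by omega
          rw [this]; push_cast; ring
        rw [ha', hb', h5]
        linear_combination (n : ℂ) * h2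
      · -- sector between `w^4` and `w^5`
        obtain ⟨m, hm⟩ := Int.eq_ofNat_of_zero_le (by omega : 0 ≤ -(a + b))
        obtain ⟨n, rfl⟩ := Int.eq_ofNat_of_zero_le ha
        refine ⟨4, m, n, ?_⟩
        have hb' : (b : ℂ) = -m - n := by
          have : b = -(m : ℤ) - n := by omega
          rw [this]; push_cast; ring
        rw [hb', h4]
        push_cast
        linear_combination (n : ℂ) * h2
  · rcases le_or_gt b 0 with hb | hb
    · obtain ⟨m, hm⟩ := Int.eq_ofNat_of_zero_le (by omega : 0 ≤ -a)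
      obtain ⟨n, hn⟩ := Int.eq_ofNat_of_zero_le (by omega : 0 ≤ -b)
      refine ⟨3, m, n, ?_⟩
      have hb' : (b : ℂ) = -n := by
        have : b = -(n : ℤ) := by omega
        rw [this]; push_cast; ring
      have ha' : (a : ℂ) = -m := by
        have : a = -(m : ℤ) := by omega
        rw [this]; push_cast; ring
      rw [ha', hb', h3]
      ring
    · rcases le_or_gt 0 (a + b) with hs | hs
      · -- sector between `w` and `w^2`
        obtain ⟨m, hm⟩ := Int.eq_ofNat_of_zero_le hs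
        obtain ⟨n, hn⟩ := Int.eq_ofNat_of_zero_le (by omega : 0 ≤ -a)
        refine ⟨1, m, n, ?_⟩
        have hb' : (b : ℂ) = m + n := by
          have : b = (m : ℤ) + n := by omega
          rw [this]; push_cast; ring
        have ha' : (a : ℂ) = -n := by
          have : a = -(n : ℤ) := by omega
          rw [this]; push_cast; ring
        rw [ha', hb']
        linear_combination -(n : ℂ) * h2
      · -- sector between `w^2` and `w^3`
        obtain ⟨m, rfl⟩ := Int.eq_ofNat_of_zero_le hb.le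
        obtain ⟨n, hn⟩ := Int.eq_ofNat_of_zero_le (by omega : 0 ≤ -(a + m))
        refine ⟨2, m, n, ?_⟩
        have ha' : (a : ℂ) = -m - n := by
          have : a = -(m : ℤ) - n := by omega
          rw [this]; push_cast; ring
        rw [ha']
        push_cast
        linear_combination -(m : ℂ) * h2 - (n : ℂ) * h3

theorem norm_sector (m n : ℕ) : (3 / 4 : ℝ) * ((m + n : ℕ) : ℝ) ^ 2 ≤ ‖(m : ℂ) + n * w‖ ^ 2 := by
  have h3 : √3 * √3 = 3 := Real.mul_self_sqrt (by norm_num)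
  rw [← Complex.normSq_eq_norm_sq, Complex.normSq_apply]
  simp only [Pool.Agent.H96.CP.om, Complex.add_re, Complex.add_im, Complex.mul_re, Complex.mul_im,
    Complex.natCast_re, Complex.natCast_im]
  push_cast
  have hm : (0:ℝ) ≤ m := Nat.cast_nonneg m
  have hn : (0:ℝ) ≤ n := Nat.cast_nonneg n
  nlinarith [sq_nonneg ((m : ℝ) - n)]

/-- **Crystal labelling.** -/
theorem crys : S_crys := by
  have hC1 := C1_pos
  have hc0 := c0_pos
  refine ⟨1 + 100 * C1 + 1 / c0, ?_, ?_⟩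
  · have : 0 < 1 / c0 := by positivity
    linarith
  intro k M τ x hM hτ0 hCτ hxQ hs hdef hex
  obtain ⟨i₀, hi₀⟩ := hex
  set C := 1 + 100 * C1 + 1 / c0 with hCdef
  have hx : x ∈ Kc k M := mem_Kc hxQ hs
  have hM2 : (400:ℝ) ≤ M ^ 2 := by nlinarith
  have hinv : 0 < 1 / c0 := by positivity
  have hCle1 : 100 * C1 ≤ C := by rw [hCdef]; linarith
  have hCle2 : 1 / c0 ≤ C := by rw [hCdef]; linarith
  have hC1τ : 100 * (M ^ 2 * (C1 * τ)) ≤ 1 := by
    calc 100 * (M ^ 2 * (C1 * τ)) = (100 * C1) * M ^ 2 * τ := by ring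
      _ ≤ C * M ^ 2 * τ := by gcongr
      _ ≤ 1 := hCτ
  have hcτ : 0 ≤ C1 * τ := by positivity
  have hτ' : 12 * C1 * τ < √3 := by
    have h1 : (1:ℝ) < √3 := by
      rw [Real.lt_sqrt (by norm_num)]; norm_num
    nlinarith
  have hτ : τ < c0 := by
    have h1 : (1 / c0) * M ^ 2 * τ ≤ 1 := le_trans (by gcongr) hCτ
    have h2 : M ^ 2 * τ ≤ c0 := by
      have : (1 / c0) * M ^ 2 * τ = (M ^ 2 * τ) / c0 := by ring
      rw [this, div_le_one hc0] at h1
      exact h1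
    nlinarith
  have hd : ∀ i, closedBall (x i) 2 ⊆ Qd M 0 → defect x i ≤ τ := fun i hi => hdef i hi
  have hi₀4 : x i₀ ∈ inner 4 M := by
    obtain ⟨⟨a1, a2⟩, a3, a4⟩ := hi₀
    exact ⟨⟨by linarith, by linarith⟩, by linarith, by linarith⟩
  have hdi₀ : defect x i₀ ≤ τ := hd i₀ (ball_sub hi₀4 (by simp))
  have hcard := ((stab hx i₀).2 (lt_of_le_of_lt hdi₀ hτ)).1
  obtain ⟨j₀, hj₀⟩ : (nbr x i₀).Nonempty := Finset.card_pos.mp (by omega)
  obtain ⟨hz1, hz2⟩ := nbr_dist hx hτ i₀ hdi₀ hj₀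
  set z' := x j₀ - x i₀ with hz'
  set θ := Complex.arg z' with hθ
  set z₁ : ℂ := (√3 : ℝ) * Complex.exp (θ * Complex.I) with hz₁
  have h3pos : (0:ℝ) ≤ √3 := Real.sqrt_nonneg 3
  have hz₁n : ‖z₁‖ = √3 := by
    rw [hz₁, norm_mul, Complex.norm_exp_ofReal_mul_I, mul_one, Complex.norm_real,
      Real.norm_eq_abs, abs_of_nonneg h3pos]
  have hdiff : ‖z' - z₁‖ ≤ 2 * (C1 * τ) := by
    have e1 : z' = (‖z'‖ : ℂ) * Complex.exp (θ * Complex.I) := (Complex.norm_mul_exp_arg_mul_I z').symm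
    have e2 : z' - z₁ = ((‖z'‖ - √3 : ℝ) : ℂ) * Complex.exp (θ * Complex.I) := by
      rw [hz₁]
      nth_rewrite 1 [e1]
      push_cast; ring
    rw [e2, norm_mul, Complex.norm_exp_ofReal_mul_I, mul_one, Complex.norm_real,
      Real.norm_eq_abs, abs_of_nonneg (by linarith)]
    linarith
  have h₀ : ∀ m : ℕ, ∃ l ∈ nbr x i₀, ‖(x l - x i₀) - w ^ m * z₁‖ ≤ 8 * (C1 * τ) := by
    intro m
    obtain ⟨l, hl, hl1⟩ := local_hex hx hτ hτ' i₀ hdi₀ hj₀ m
    refine ⟨l, hl, ?_⟩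
    have e : (x l - x i₀) - w ^ m * z₁ = ((x l - x i₀) - w ^ m * z') + w ^ m * (z' - z₁) := by ring
    rw [e]
    refine (norm_add_le _ _).trans ?_
    rw [norm_mul, w_pow_norm, one_mul]
    linarith
  have hnorm0 : ‖x i₀‖ ≤ 2 * M := by
    obtain ⟨⟨a1, a2⟩, a3, a4⟩ := hi₀
    refine (Complex.norm_le_abs_re_add_abs_im _).trans ?_
    rw [abs_of_nonneg (by linarith), abs_of_nonneg (by linarith)]
    linarith
  refine ⟨x i₀, θ, hnorm0, Complex.abs_arg_le_pi _, fun a b hab => ?_⟩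
  obtain ⟨r, m, n, hrmn⟩ := sector a b
  have hlat : lat (x i₀) θ a b = x i₀ + z₁ * (w ^ r * (m + n * w)) := by
    unfold lat
    rw [← hrmn, hz₁]
  rw [hlat] at hab ⊢
  -- length of the path
  have hlen : ((m + n : ℕ) : ℝ) ^ 2 ≤ 8 / 9 * M ^ 2 := by
    have h1 := norm_sector m n
    have h2 : ‖z₁ * (w ^ r * (m + n * w))‖ ^ 2 ≤ 2 * M ^ 2 := by
      set y := z₁ * (w ^ r * (m + n * w)) with hy
      obtain ⟨⟨a1, a2⟩, a3, a4⟩ := hi₀
      obtain ⟨⟨b1, b2⟩, b3, b4⟩ := hab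
      rw [Complex.add_re] at b1 b2
      rw [Complex.add_im] at b3 b4
      rw [← Complex.normSq_eq_norm_sq, Complex.normSq_apply]
      have c1 : y.re ^ 2 ≤ M ^ 2 := sq_le_sq' (by linarith) (by linarith)
      have c2 : y.im ^ 2 ≤ M ^ 2 := sq_le_sq' (by linarith) (by linarith)
      nlinarith
    rw [norm_mul z₁, norm_mul (w ^ r), w_pow_norm, one_mul, hz₁n, mul_pow,
      Real.sq_sqrt (by norm_num)] at h2
    nlinarith
  have hL : 11 * ((m + n : ℕ) : ℝ) ^ 2 * (C1 * τ) ≤ 1 := by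
    calc 11 * ((m + n : ℕ) : ℝ) ^ 2 * (C1 * τ) ≤ 11 * (8 / 9 * M ^ 2) * (C1 * τ) := by gcongr
      _ ≤ 1 := by
        have : 0 ≤ M ^ 2 * (C1 * τ) := by positivity
        nlinarith
  obtain ⟨i, hi⟩ := straight hx hτ0 hτ hτ' hd i₀ z₁ hz₁n hi₀ h₀ r m n hL hab
  refine ⟨i, hi.trans ?_⟩
  calc 11 * ((m + n : ℕ) : ℝ) ^ 2 * (C1 * τ) ≤ 11 * (8 / 9 * M ^ 2) * (C1 * τ) := by gcongr
    _ ≤ (100 * C1) * M ^ 2 * τ := by
        have : 0 ≤ M ^ 2 * (C1 * τ) := by positivity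
        nlinarith
    _ ≤ C * M ^ 2 * τ := by gcongr

end Pool.Agent.H53.CP
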