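import Pool.Agent.H96.CP.Stm5
import Pool.Agent.H53.CP.Cvx

/-!
# Project CP: existence of the free energy (`S_ex`)
-/

set_option autoImplicit false

open Real Set MeasureTheory Metric Filter Topology
open scoped ENNReal Nat

namespace Pool.Agent.H53.CP

open Pool.Agent.K4H96.HS (Box)
open Pool.Agent.H96.HD

/-! ## Finite volume -/

theorem box_eq (L : ℝ) : Box 2 L = Set.pi univ fun _ => Icc (0:ℝ) L := by
  ext x; simp only [Box, Set.mem_pi, mem_univ, true_imp_iff]; rfl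

theorem vol_box {ℓ : ℝ} (hℓ : 0 ≤ ℓ) : volume (Box 2 ℓ) = ENNReal.ofReal (ℓ ^ 2) := by
  rw [box_eq, volume_pi_pi]
  simp only [Real.volume_Icc, sub_zero, Finset.prod_const, Finset.card_univ, Fintype.card_fin]
  rw [ENNReal.ofReal_pow hℓ]

theorem vol_pi_box {ℓ : ℝ} (hℓ : 0 ≤ ℓ) (n : ℕ) :
    volume (Set.pi univ fun _ : Fin n => Box 2 ℓ) = ENNReal.ofReal ((ℓ ^ 2) ^ n) := by
  rw [volume_pi_pi]
  simp only [vol_box hℓ, Finset.prod_const, Finset.card_univ, Fintype.card_fin]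
  rw [← ENNReal.ofReal_pow (by positivity)]

theorem Z_le (a : ℝ) {ℓ : ℝ} (hℓ : 0 ≤ ℓ) (n : ℕ) : Z a ℓ n ≤ (ℓ ^ 2) ^ n / n ! := by
  rw [Z_eq_z]
  unfold z
  rw [ENNReal.toReal_mul, ENNReal.toReal_inv, ENNReal.toReal_natCast, div_eq_inv_mul]
  refine mul_le_mul_of_nonneg_left ?_ (by positivity)
  refine ENNReal.toReal_le_of_le_ofReal (by positivity) ?_
  rw [← vol_pi_box hℓ]
  refine measure_mono ?_
  rintro x ⟨h1, -⟩
  exact fun i _ => h1 i

theorem Z_one (a : ℝ) {ℓ : ℝ} (hℓ : 0 ≤ ℓ) : Z a ℓ 1 = ℓ ^ 2 := by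
  rw [Z_eq_z]
  unfold z
  have h1 : Cf (2 * a) (Box 2 ℓ) (Fin 1) = Set.pi univ fun _ : Fin 1 => Box 2 ℓ := by
    ext x
    simp only [Cf, mem_ofPred_eq, Set.mem_pi, mem_univ, true_imp_iff, and_iff_left_iff_imp]
    intro _ i j hij
    exact absurd (Subsingleton.elim i j) hij
  rw [h1, vol_pi_box hℓ, ENNReal.toReal_mul, ENNReal.toReal_ofReal (by positivity)]
  simp

theorem z_zero (α : ℝ) (Λ : Set (Fin 2 → ℝ)) : z α Λ 0 = 1 := by
  unfold z
  have : Cf α Λ (Fin 0) = univ := by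
    ext x
    simp [Cf]
  rw [this]
  simp [volume_pi, Measure.pi_univ]

theorem Z_mono (a : ℝ) {L L' : ℝ} (h : L ≤ L') (n : ℕ) : Z a L n ≤ Z a L' n := by
  rw [Z_eq_z, Z_eq_z]
  refine ENNReal.toReal_mono (z_box_ne_top _ _ _) (z_mono _ ?_ _)
  intro x hx
  rw [box_eq] at hx ⊢
  intro i hi
  exact ⟨(hx i hi).1, (hx i hi).2.trans h⟩

theorem Z_grid3 {a ℓ : ℝ} (ha : 0 < a) (hℓ : 0 ≤ ℓ) {m p r : ℕ} (h : p + r ≤ m * m) (n : ℕ) :
    Z a ℓ n ^ p * Z a ℓ 1 ^ r ≤ Z a (m * (ℓ + 2 * a)) (p * n + r) := by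
  classical
  obtain ⟨T, -, hT⟩ := Finset.exists_subset_card_eq
    (s := (Finset.univ : Finset (Fin m × Fin m))) (n := p) (by simp; omega)
  obtain ⟨T', hT'1, hT'⟩ := Finset.exists_subset_card_eq
    (s := (Finset.univ \ T : Finset (Fin m × Fin m))) (n := r) (by
      rw [Finset.card_univ_diff, hT]; simp; omega)
  have hdis : Disjoint T T' := by
    rw [Finset.disjoint_left]
    intro c hc hc'
    exact (Finset.mem_sdiff.1 (hT'1 hc')).2 hc
  set f : Fin m × Fin m → ℕ := fun c => if c ∈ T then n else if c ∈ T' then 1 else 0 with hf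
  have hg := grid (α := 2 * a) (by positivity) hℓ m f
  have hf1 : ∀ c ∈ T, f c = n := fun c hc => by simp [hf, hc]
  have hf2 : ∀ c ∈ T', f c = 1 := fun c hc => by
    have : c ∉ T := fun h => Finset.disjoint_left.1 hdis h hc
    simp [hf, hc, this]
  have hf3 : ∀ c, c ∉ T ∪ T' → f c = 0 := fun c hc => by
    rw [Finset.mem_union, not_or] at hc
    simp [hf, hc.1, hc.2]
  have hs : ∑ c, f c = p * n + r := by
    rw [← Finset.sum_subset (Finset.subset_univ (T ∪ T')) fun c _ hc => hf3 c hc,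
      Finset.sum_union hdis, Finset.sum_congr rfl hf1, Finset.sum_congr rfl hf2]
    simp [hT, hT']
  have hp : ∏ c, z (2 * a) (Box 2 ℓ) (f c) =
      z (2 * a) (Box 2 ℓ) n ^ p * z (2 * a) (Box 2 ℓ) 1 ^ r := by
    rw [← Finset.prod_subset (Finset.subset_univ (T ∪ T')) fun c _ hc => by
        rw [hf3 c hc, z_zero],
      Finset.prod_union hdis, Finset.prod_congr rfl fun c hc => by rw [hf1 c hc],
      Finset.prod_congr (s₁ := T') rfl fun c hc => by rw [hf2 c hc]]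
    simp [hT, hT']
  rw [hs, hp] at hg
  have h' := ENNReal.toReal_mono (z_box_ne_top _ _ _) hg
  rw [ENNReal.toReal_mul, ENNReal.toReal_pow, ENNReal.toReal_pow] at h'
  rw [Z_eq_z, Z_eq_z, Z_eq_z]
  exact h'

/-! ## The supremum -/

/-- the entropy per particle in a square of side `ℓ` -/
noncomputable def lam (a ℓ : ℝ) (n : ℕ) : ℝ := Real.log (Z a ℓ n) / n

/-- the entropies per particle with area per particle less than `w` -/
def GP (a w : ℝ) : Set ℝ :=
  {y | ∃ (ℓ : ℝ) (n : ℕ), 1 ≤ n ∧ 0 ≤ ℓ ∧ 0 < Z a ℓ n ∧ (ℓ + 2 * a) ^ 2 / n < w ∧ y = lam a ℓ n}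

noncomputable def H (a w : ℝ) : ℝ := sSup (GP a w)

theorem lam_le {a ℓ : ℝ} (hℓ : 0 ≤ ℓ) {n : ℕ} (hn : 1 ≤ n) (hZ : 0 < Z a ℓ n) :
    lam a ℓ n ≤ ℓ ^ 2 / n := by
  have hn' : (0:ℝ) < n := by exact_mod_cast hn
  unfold lam
  refine div_le_div_of_nonneg_right ?_ hn'.le
  rw [Real.log_le_iff_le_exp hZ]
  exact (Z_le a hℓ n).trans (Real.pow_div_factorial_le_exp _ (by positivity) n)

theorem GP_bdd {a : ℝ} (ha : 0 < a) (w : ℝ) : BddAbove (GP a w) := by
  refine ⟨w, ?_⟩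
  rintro _ ⟨ℓ, n, hn, hℓ, hZ, hw, rfl⟩
  have hn' : (0:ℝ) < n := by exact_mod_cast hn
  refine (lam_le hℓ hn hZ).trans (le_trans ?_ hw.le)
  refine div_le_div_of_nonneg_right ?_ hn'.le
  nlinarith

theorem GP_mono {a w w' : ℝ} (h : w ≤ w') : GP a w ⊆ GP a w' := by
  rintro _ ⟨ℓ, n, hn, hℓ, hZ, hw, rfl⟩
  exact ⟨ℓ, n, hn, hℓ, hZ, hw.trans_le h, rfl⟩

theorem lam_le_H {a w ℓ : ℝ} (ha : 0 < a) (hℓ : 0 ≤ ℓ) {n : ℕ} (hn : 1 ≤ n) (hZ : 0 < Z a ℓ n)
    (hw : (ℓ + 2 * a) ^ 2 / n < w) : lam a ℓ n ≤ H a w :=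
  le_csSup (GP_bdd ha w) ⟨ℓ, n, hn, hℓ, hZ, hw, rfl⟩

theorem side_pos {a ℓ : ℝ} (hℓ : 0 ≤ ℓ) {n : ℕ} (hn : 1 ≤ n) (hZ : 0 < Z a ℓ n) : 0 < ℓ := by
  rcases hℓ.eq_or_lt with h | h
  · exfalso
    have h1 := Z_le a hℓ n
    rw [← h, zero_pow two_ne_zero, zero_pow (by omega), zero_div, h] at h1
    linarith
  · exact h

/-! ## Lower bound -/

/-- the entropy of large squares is at least that of a fixed square with smaller area per particle -/
theorem lower {a v ℓ : ℝ} (ha : 0 < a) (hℓ0 : 0 ≤ ℓ) {n : ℕ} (hn : 1 ≤ n) (hZ : 0 < Z a ℓ n)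
    (hw : (ℓ + 2 * a) ^ 2 / n < v) {N : ℕ → ℕ} {L : ℕ → ℝ} (hN : Tendsto N atTop atTop)
    (hL : Tendsto L atTop atTop) (hv : Tendsto (fun k => L k ^ 2 / N k) atTop (𝓝 v)) {ε : ℝ}
    (hε : 0 < ε) : ∀ᶠ k in atTop, 0 < Z a (L k) (N k) ∧ lam a ℓ n - ε ≤ lam a (L k) (N k) := by
  have hℓ := side_pos hℓ0 hn hZ
  have hn' : (0:ℝ) < n := by exact_mod_cast hn
  have hb : 0 < ℓ + 2 * a := by positivity
  set b := ℓ + 2 * a with hbdef
  have hNr : Tendsto (fun k => (N k : ℝ)) atTop atTop := tendsto_natCast_atTop_atTop.comp hN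
  -- the number of cells
  set m : ℕ → ℕ := fun k => ⌊L k / b⌋₊ with hm
  have hmL : Tendsto (fun k => (m k : ℝ) / L k) atTop (𝓝 (1 / b)) := by
    have h1 := (tendsto_nat_floor_mul_div_atTop (R := ℝ) (a := 1 / b) (by positivity)).comp hL
    refine h1.congr fun k => ?_
    simp only [Function.comp, hm]
    rw [one_div_mul_eq_div]
  have hmN : Tendsto (fun k => ((m k * m k : ℕ) : ℝ) / N k) atTop (𝓝 (v / b ^ 2)) := by
    have h1 := (hmL.pow 2).mul hv
    have h2 : (1 / b) ^ 2 * v = v / b ^ 2 := by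
      rw [one_div, inv_pow, inv_mul_eq_div]
    rw [h2] at h1
    refine h1.congr' ?_
    filter_upwards [hL.eventually_gt_atTop 0] with k hk
    push_cast
    field_simp
  have hpN : Tendsto (fun k => ((N k / n : ℕ) : ℝ) / N k) atTop (𝓝 (1 / n)) := by
    have h1 := (tendsto_nat_floor_mul_div_atTop (R := ℝ) (a := 1 / n) (by positivity)).comp hNr
    refine h1.congr fun k => ?_
    simp only [Function.comp]
    rw [one_div_mul_eq_div, Nat.floor_div_natCast, Nat.floor_natCast]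
  have hrN : Tendsto (fun k => ((N k % n : ℕ) : ℝ) / N k) atTop (𝓝 0) := by
    have h1 : Tendsto (fun k => (n : ℝ) / N k) atTop (𝓝 0) := hNr.const_div_atTop _
    refine squeeze_zero (fun k => by positivity) (fun k => ?_) h1
    refine div_le_div_of_nonneg_right ?_ (by positivity)
    exact_mod_cast (Nat.mod_lt _ hn).le
  have hlt : (1:ℝ) / n < v / b ^ 2 := by
    rw [div_lt_div_iff₀ hn' (by positivity)]
    rw [div_lt_iff₀ hn'] at hw
    linarith
  have hev : ∀ᶠ k in atTop, N k / n + N k % n ≤ m k * m k := by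
    have h1 := (hpN.add hrN)
    rw [add_zero] at h1
    filter_upwards [h1.eventually_lt hmN hlt, hN.eventually_ge_atTop 1] with k hk hk1
    have hk' : (0:ℝ) < N k := by exact_mod_cast hk1
    rw [← add_div, div_lt_div_iff_of_pos_right hk'] at hk
    exact_mod_cast hk.le
  have hlim : Tendsto (fun k => ((N k / n : ℕ) : ℝ) / N k * Real.log (Z a ℓ n) +
      ((N k % n : ℕ) : ℝ) / N k * Real.log (Z a ℓ 1)) atTop (𝓝 (lam a ℓ n)) := by
    have h1 := (hpN.mul_const (Real.log (Z a ℓ n))).add (hrN.mul_const (Real.log (Z a ℓ 1)))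
    have h2 : 1 / (n:ℝ) * Real.log (Z a ℓ n) + 0 * Real.log (Z a ℓ 1) = lam a ℓ n := by
      unfold lam
      rw [zero_mul, add_zero, one_div_mul_eq_div]
    rwa [h2] at h1
  have hZ1 : 0 < Z a ℓ 1 := by rw [Z_one a hℓ0]; positivity
  filter_upwards [hev, hN.eventually_ge_atTop 1, hL.eventually_gt_atTop 0,
    hlim.eventually_const_lt (show lam a ℓ n - ε < lam a ℓ n by linarith)] with k h1 h2 h3 h4
  have hk' : (0:ℝ) < N k := by exact_mod_cast h2
  have hg := Z_grid3 ha hℓ0 h1 n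
  have hmle : (m k : ℝ) * (ℓ + 2 * a) ≤ L k := by
    have h5 : (m k : ℝ) ≤ L k / b := Nat.floor_le (by positivity)
    rw [le_div_iff₀ hb] at h5
    exact h5
  have hsum : N k / n * n + N k % n = N k := Nat.div_add_mod' _ _
  rw [hsum] at hg
  have hg2 := hg.trans (Z_mono a hmle (N k))
  have hpos : 0 < Z a ℓ n ^ (N k / n) * Z a ℓ 1 ^ (N k % n) :=
    mul_pos (pow_pos hZ _) (pow_pos hZ1 _)
  refine ⟨hpos.trans_le hg2, h4.le.trans ?_⟩
  have hlog := Real.log_le_log hpos hg2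
  rw [Real.log_mul (pow_pos hZ _).ne' (pow_pos hZ1 _).ne', Real.log_pow, Real.log_pow] at hlog
  unfold lam
  rw [le_div_iff₀ hk']
  refine le_trans (le_of_eq ?_) hlog
  field_simp

/-! ## Mixtures -/

/-- a mixture of squares of area per particle `u` and `w` -/
theorem mix_aux {a u w v s : ℝ} (ha : 0 < a) (hu : 0 < u) (hw : 0 < w) (hs0 : 0 < s) (hs1 : s < 1)
    (hv : 1 / (s / u + (1 - s) / w) < v) {y₁ y₂ : ℝ} (h₁ : y₁ ∈ GP a u) (h₂ : y₂ ∈ GP a w) {ε : ℝ}
    (hε : 0 < ε) :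
    s / u / (s / u + (1 - s) / w) * (y₁ - ε) + (1 - s) / w / (s / u + (1 - s) / w) * (y₂ - ε) ≤
      H a v := by
  have hs1' : 0 < 1 - s := by linarith
  set c₀ := s / u + (1 - s) / w with hc₀
  have hc₀pos : 0 < c₀ := by positivity
  set t : ℕ → ℝ := fun k => ((k : ℝ) + 1) ^ 2 with ht
  have htpos : ∀ k, 0 < t k := fun k => by simp only [ht]; positivity
  have htt : Tendsto t atTop atTop := by
    have h1 : Tendsto (fun k : ℕ => (k : ℝ) + 1) atTop atTop :=
      tendsto_atTop_add_const_right _ _ tendsto_natCast_atTop_atTop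
    exact (tendsto_pow_atTop (by norm_num)).comp h1
  -- the numbers
  set n₁ : ℕ → ℕ := fun k => ⌊1 / u * t k⌋₊ with hn₁
  set n₂ : ℕ → ℕ := fun k => ⌊1 / w * t k⌋₊ with hn₂
  set K₁ : ℕ → ℕ := fun k => ⌊s * t k⌋₊ with hK₁
  set K₂ : ℕ → ℕ := fun k => (k + 1) * (k + 1) - K₁ k with hK₂
  have hKle : ∀ k, K₁ k ≤ (k + 1) * (k + 1) := by
    intro k
    have h1 : s * t k ≤ (((k + 1) * (k + 1) : ℕ) : ℝ) := by
      push_cast
      simp only [ht]
      nlinarith [htpos k]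
    exact Nat.floor_le_of_le h1
  have hKsum : ∀ k, K₁ k + K₂ k = (k + 1) * (k + 1) := fun k => Nat.add_sub_cancel' (hKle k)
  have floor_lim : ∀ c : ℝ, 0 ≤ c → Tendsto (fun k => ((⌊c * t k⌋₊ : ℕ) : ℝ) / t k) atTop (𝓝 c) :=
    fun c hc => (tendsto_nat_floor_mul_div_atTop hc).comp htt
  have floor_top : ∀ c : ℝ, 0 < c → Tendsto (fun k => ⌊c * t k⌋₊) atTop atTop :=
    fun c hc => tendsto_nat_floor_atTop.comp (htt.const_mul_atTop hc)
  have l1 : Tendsto (fun k => (n₁ k : ℝ) / t k) atTop (𝓝 (1 / u)) := floor_lim _ (by positivity)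
  have l2 : Tendsto (fun k => (n₂ k : ℝ) / t k) atTop (𝓝 (1 / w)) := floor_lim _ (by positivity)
  have l3 : Tendsto (fun k => (K₁ k : ℝ) / t k) atTop (𝓝 s) := floor_lim _ hs0.le
  have l4 : Tendsto (fun k => (K₂ k : ℝ) / t k) atTop (𝓝 (1 - s)) := by
    refine (l3.const_sub 1).congr fun k => ?_
    have h1 : (K₁ k : ℝ) + K₂ k = ((k : ℝ) + 1) * (k + 1) := by exact_mod_cast hKsum k
    have h2 : t k = ((k : ℝ) + 1) * (k + 1) := by simp only [ht]; ring
    have h3 : (K₂ k : ℝ) = t k - K₁ k := by rw [h2]; linarith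
    rw [h3, sub_div, div_self (htpos k).ne']
  have t1 : Tendsto n₁ atTop atTop := floor_top _ (by positivity)
  have t2 : Tendsto n₂ atTop atTop := floor_top _ (by positivity)
  have t3 : Tendsto K₁ atTop atTop := floor_top _ hs0
  -- the small squares
  set ℓ : ℕ → ℝ := fun k => (k : ℝ) + 1 with hℓ
  have hℓt : Tendsto ℓ atTop atTop :=
    tendsto_atTop_add_const_right _ _ tendsto_natCast_atTop_atTop
  have hdens : ∀ (n : ℕ → ℕ) (v : ℝ), 0 < v → Tendsto (fun k => (n k : ℝ) / t k) atTop (𝓝 (1 / v)) →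
      Tendsto (fun k => ℓ k ^ 2 / n k) atTop (𝓝 v) := by
    intro n v hv h
    have h1 := h.inv₀ (by positivity)
    rw [one_div, inv_inv] at h1
    refine h1.congr fun k => ?_
    rw [inv_div]
  obtain ⟨ℓ₁, m₁, hm₁, hℓ₁, hZ₁, hw₁, rfl⟩ := h₁
  obtain ⟨ℓ₂, m₂, hm₂, hℓ₂, hZ₂, hw₂, rfl⟩ := h₂
  have g1 := lower ha hℓ₁ hm₁ hZ₁ hw₁ t1 hℓt (hdens n₁ u hu l1) hε
  have g2 := lower ha hℓ₂ hm₂ hZ₂ hw₂ t2 hℓt (hdens n₂ w hw l2) hε
  -- the large square
  set N : ℕ → ℕ := fun k => K₁ k * n₁ k + K₂ k * n₂ k with hN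
  set L : ℕ → ℝ := fun k => ((k + 1 : ℕ) : ℝ) * (ℓ k + 2 * a) with hL
  have hc0 : s * (1 / u) + (1 - s) * (1 / w) = c₀ := by
    rw [hc₀]; ring
  have lA : Tendsto (fun k => (K₁ k * n₁ k : ℝ) / t k ^ 2) atTop (𝓝 (s / u)) := by
    have hc : s * (1 / u) = s / u := by ring
    rw [← hc]
    refine (l3.mul l1).congr fun k => ?_
    have := (htpos k).ne'
    field_simp
  have lB : Tendsto (fun k => (K₂ k * n₂ k : ℝ) / t k ^ 2) atTop (𝓝 ((1 - s) / w)) := by
    have hc : (1 - s) * (1 / w) = (1 - s) / w := by ring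
    rw [← hc]
    refine (l4.mul l2).congr fun k => ?_
    have := (htpos k).ne'
    field_simp
  have lN : Tendsto (fun k => (N k : ℝ) / t k ^ 2) atTop (𝓝 c₀) := by
    refine (lA.add lB).congr fun k => ?_
    simp only [hN]
    push_cast
    rw [add_div]
  have tN : Tendsto N atTop atTop := by
    refine tendsto_atTop_mono' atTop ?_ t1
    filter_upwards [t3.eventually_ge_atTop 1] with k hk
    simp only [hN]
    nlinarith [Nat.zero_le (K₂ k * n₂ k), Nat.zero_le (n₁ k)]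
  have lL : Tendsto (fun k => (L k + 2 * a) ^ 2 / t k ^ 2) atTop (𝓝 1) := by
    have h1 : Tendsto (fun k : ℕ => (1 + 2 * a / ℓ k + 2 * a / t k) ^ 2) atTop
        (𝓝 ((1 + 0 + 0) ^ 2)) :=
      (((hℓt.const_div_atTop (2 * a)).const_add 1).add (htt.const_div_atTop (2 * a))).pow 2
    rw [show ((1:ℝ) + 0 + 0) ^ 2 = 1 by norm_num] at h1
    refine h1.congr fun k => ?_
    have : (0:ℝ) < (k : ℝ) + 1 := by positivity
    simp only [hL, hℓ, ht]
    push_cast
    field_simp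
  have lLN : Tendsto (fun k => (L k + 2 * a) ^ 2 / N k) atTop (𝓝 (1 / c₀)) := by
    have h1 := lL.div lN hc₀pos.ne'
    refine h1.congr fun k => ?_
    have := (htpos k).ne'
    simp only [Pi.div_apply]
    rw [div_div_div_cancel_right₀ (pow_ne_zero 2 this)]
  have w1 : Tendsto (fun k => (K₁ k * n₁ k : ℝ) / N k) atTop (𝓝 (s / u / c₀)) := by
    have h1 := lA.div lN hc₀pos.ne'
    refine h1.congr fun k => ?_
    have := (htpos k).ne'
    simp only [Pi.div_apply]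
    rw [div_div_div_cancel_right₀ (pow_ne_zero 2 this)]
  have w2 : Tendsto (fun k => (K₂ k * n₂ k : ℝ) / N k) atTop (𝓝 ((1 - s) / w / c₀)) := by
    have h1 := lB.div lN hc₀pos.ne'
    refine h1.congr fun k => ?_
    have := (htpos k).ne'
    simp only [Pi.div_apply]
    rw [div_div_div_cancel_right₀ (pow_ne_zero 2 this)]
  have hlim := (w1.mul_const (lam a ℓ₁ m₁ - ε)).add (w2.mul_const (lam a ℓ₂ m₂ - ε))
  refine le_of_tendsto hlim ?_
  filter_upwards [g1, g2, t1.eventually_ge_atTop 1, t2.eventually_ge_atTop 1,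
    tN.eventually_ge_atTop 1, lLN.eventually_lt_const hv] with k q1 q2 r1 r2 rN hk
  have hg := Z_grid ha (ℓ := ℓ k) (by simp only [hℓ]; positivity) (hKsum k) (n₁ k) (n₂ k)
  have hpos : 0 < Z a (ℓ k) (n₁ k) ^ K₁ k * Z a (ℓ k) (n₂ k) ^ K₂ k :=
    mul_pos (pow_pos q1.1 _) (pow_pos q2.1 _)
  have hlog := Real.log_le_log hpos hg
  rw [Real.log_mul (pow_pos q1.1 _).ne' (pow_pos q2.1 _).ne', Real.log_pow, Real.log_pow] at hlog
  have hNpos : (0:ℝ) < N k := by exact_mod_cast rN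
  have hn1pos : (0:ℝ) < n₁ k := by exact_mod_cast r1
  have hn2pos : (0:ℝ) < n₂ k := by exact_mod_cast r2
  have hLk : 0 ≤ L k := by simp only [hL, hℓ]; positivity
  have hH := lam_le_H ha hLk (n := N k) rN (hpos.trans_le hg) hk
  refine le_trans ?_ hH
  have e1 : (K₁ k * n₁ k : ℝ) / N k * lam a (ℓ k) (n₁ k) +
      (K₂ k * n₂ k : ℝ) / N k * lam a (ℓ k) (n₂ k) ≤ lam a (L k) (N k) := by
    unfold lam
    rw [le_div_iff₀ hNpos]
    refine le_trans (le_of_eq ?_) hlog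
    field_simp
  refine le_trans (add_le_add ?_ ?_) e1
  · exact mul_le_mul_of_nonneg_left q1.2 (by positivity)
  · exact mul_le_mul_of_nonneg_left q2.2 (by positivity)

theorem mix {a u w v s : ℝ} (ha : 0 < a) (hu : 0 < u) (hw : 0 < w) (hs0 : 0 < s) (hs1 : s < 1)
    (hv : 1 / (s / u + (1 - s) / w) < v) (h₁ : (GP a u).Nonempty) (h₂ : (GP a w).Nonempty) :
    s / u / (s / u + (1 - s) / w) * H a u + (1 - s) / w / (s / u + (1 - s) / w) * H a w ≤
      H a v := by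
  have hs1' : 0 < 1 - s := by linarith
  have hc₀pos : 0 < s / u + (1 - s) / w := by positivity
  set A := s / u / (s / u + (1 - s) / w) with hA
  set B := (1 - s) / w / (s / u + (1 - s) / w) with hB
  have hA0 : 0 < A := by positivity
  have hB0 : 0 < B := by positivity
  have hAB : A + B = 1 := by
    rw [hA, hB, ← add_div, div_self hc₀pos.ne']
  have key : ∀ y₁ ∈ GP a u, ∀ y₂ ∈ GP a w, A * y₁ + B * y₂ ≤ H a v := by
    intro y₁ hy₁ y₂ hy₂
    refine le_of_forall_pos_sub_le fun ε hε => ?_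
    have := mix_aux ha hu hw hs0 hs1 hv hy₁ hy₂ hε
    have h1 : A * (y₁ - ε) + B * (y₂ - ε) = A * y₁ + B * y₂ - ε := by
      linear_combination -ε * hAB
    rw [← h1]; exact this
  have k2 : ∀ y₁ ∈ GP a u, A * y₁ + B * H a w ≤ H a v := by
    intro y₁ hy₁
    have h3 : H a w ≤ (H a v - A * y₁) / B := csSup_le h₂ fun y₂ hy₂ => by
      rw [le_div_iff₀ hB0]
      have := key y₁ hy₁ y₂ hy₂
      linarith
    rw [le_div_iff₀ hB0] at h3
    linarith
  have h3 : H a u ≤ (H a v - B * H a w) / A := csSup_le h₁ fun y₁ hy₁ => by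
    rw [le_div_iff₀ hA0]
    have := k2 y₁ hy₁
    linarith
  rw [le_div_iff₀ hA0] at h3
  linarith

/-! ## Squares with positive partition function -/

theorem GP_nonempty {a u : ℝ} (ha : 0 < a) (hu : 2 * √3 * a ^ 2 < u) : (GP a u).Nonempty := by
  obtain ⟨C, hC, h⟩ := two_sided
  set x := min ((u - 2 * √3 * a ^ 2) / 2) (4 * a ^ 2) with hx
  have hx0 : 0 < x := lt_min (by linarith) (by positivity)
  have hx1 : 2 * √3 * a ^ 2 + x < u := by
    have : x ≤ (u - 2 * √3 * a ^ 2) / 2 := min_le_left _ _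
    linarith
  set v := 2 * √3 * a ^ 2 + x with hv
  have hv0 : 0 < v := by positivity
  obtain ⟨h1, h2, h3⟩ := seq_tendsto hv0
  have h4 : Tendsto (fun k : ℕ => √((k + 1 : ℕ) : ℝ)) atTop atTop :=
    tendsto_sqrt_atTop.comp (tendsto_natCast_atTop_atTop.comp h1)
  have h5 : Tendsto (fun k : ℕ => C * a ^ 2 / √((k + 1 : ℕ) : ℝ)) atTop (𝓝 0) :=
    h4.const_div_atTop _
  have h6 : Tendsto (fun k : ℕ => (√(v * ((k + 1 : ℕ) : ℝ)) + 2 * a) ^ 2 / ((k + 1 : ℕ) : ℝ)) atTop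
      (𝓝 v) := by
    have h7 : Tendsto (fun k : ℕ => v * (1 + 2 * a / √(v * ((k + 1 : ℕ) : ℝ))) ^ 2) atTop
        (𝓝 (v * (1 + 0) ^ 2)) := (((h2.const_div_atTop (2 * a)).const_add 1).pow 2).const_mul v
    rw [show v * (1 + 0) ^ 2 = v by ring] at h7
    refine h7.congr fun k => ?_
    have hk' : (0:ℝ) < ((k + 1 : ℕ) : ℝ) := by positivity
    have hsq : 0 < √(v * ((k + 1 : ℕ) : ℝ)) := by positivity
    have h8 := h3 k
    rw [div_eq_iff hk'.ne'] at h8
    rw [eq_div_iff hk'.ne']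
    field_simp
    rw [h8]
  obtain ⟨k, hk1, hk2⟩ := ((h5.eventually_le_const hx0).and (h6.eventually_lt_const hx1)).exists
  have h9 := h a ha (k + 1) (Nat.succ_pos k) (√(v * ((k + 1 : ℕ) : ℝ))) (Real.sqrt_nonneg _)
    (by rw [h3 k, hv]; linarith) (by
      rw [h3 k, hv]
      have : x ≤ 4 * a ^ 2 := min_le_right _ _
      linarith)
  refine ⟨_, √(v * ((k + 1 : ℕ) : ℝ)), k + 1, by omega, Real.sqrt_nonneg _, ?_, hk2, rfl⟩
  rw [Z_eq]
  have h10 : 0 < (((√(v * ((k + 1 : ℕ) : ℝ))) ^ 2 / ((k + 1 : ℕ) : ℝ) - 2 * √3 * a ^ 2) ^ 2 /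
      (C * a ^ 2)) ^ (k + 1) := by
    rw [h3 k, hv]
    have : 0 < 2 * √3 * a ^ 2 + x - 2 * √3 * a ^ 2 := by linarith
    positivity
  have h11 : (0:ℝ) < ((k + 1)! : ℝ) := by positivity
  have h12 := (mul_pos h11 h10).trans_le h9.1
  positivity

/-- continuity from the right -/
theorem H_right {a v ε : ℝ} (ha : 0 < a) (hv : 2 * √3 * a ^ 2 < v) (hε : 0 < ε) :
    ∃ w, v < w ∧ H a w ≤ H a v + ε := by
  have hv0 : 0 < v := lt_trans (by positivity) hv
  obtain ⟨u, hu1, hu2⟩ := exists_between hv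
  have hu0 : 0 < u := lt_trans (by positivity) hu1
  have neu := GP_nonempty ha hu1
  have Hmono : ∀ w w', 2 * √3 * a ^ 2 < w → w ≤ w' → H a w ≤ H a w' := fun w w' hw hww =>
    csSup_le_csSup (GP_bdd ha w') (GP_nonempty ha hw) (GP_mono hww)
  set D := H a (v + 1) - H a u with hD
  have hD0 : 0 ≤ D := by
    have := Hmono u (v + 1) hu1 (by linarith)
    linarith
  set s := min (u / (2 * v)) (ε * u / (v * (D + 1))) with hs
  have hs0 : 0 < s := lt_min (by positivity) (by positivity)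
  have hs2 : s * v < u := by
    have : s ≤ u / (2 * v) := min_le_left _ _
    rw [le_div_iff₀ (by positivity)] at this
    nlinarith
  have hs1 : s < 1 := by
    by_contra hc
    push Not at hc
    nlinarith
  have hs3 : s * v / u * D ≤ ε := by
    have h1 : s ≤ ε * u / (v * (D + 1)) := min_le_right _ _
    rw [le_div_iff₀ (by positivity)] at h1
    have h2 : s * v * D ≤ ε * u := by nlinarith [mul_pos hs0 hv0]
    rw [div_mul_eq_mul_div, div_le_iff₀ hu0]
    exact h2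
  have hlt : v < min ((1 - s) * (u * v) / (u - s * v)) (v + 1) := by
    refine lt_min ?_ (by linarith)
    rw [lt_div_iff₀ (by linarith)]
    nlinarith [mul_pos hs0 hv0]
  obtain ⟨w, hw1, hw2⟩ := exists_between hlt
  have hw3 : w < (1 - s) * (u * v) / (u - s * v) := hw2.trans_le (min_le_left _ _)
  have hw4 : w < v + 1 := hw2.trans_le (min_le_right _ _)
  have hw0 : 0 < w := hv0.trans hw1
  have hs1' : 0 < 1 - s := by linarith
  set c₀ := s / u + (1 - s) / w with hc₀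
  have hc₀pos : 0 < c₀ := by positivity
  have hcv : 1 / c₀ < v := by
    rw [div_lt_iff₀ hc₀pos, hc₀]
    rw [lt_div_iff₀ (by linarith)] at hw3
    rw [div_add_div _ _ hu0.ne' hw0.ne', mul_div_assoc', lt_div_iff₀ (by positivity)]
    nlinarith
  have hm := mix ha hu0 hw0 hs0 hs1 hcv neu (GP_nonempty ha (hv.trans hw1))
  rw [← hc₀] at hm
  set A := s / u / c₀ with hA
  set B := (1 - s) / w / c₀ with hB
  have hA0 : 0 < A := by positivity
  have hAB : A + B = 1 := by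
    rw [hA, hB, ← add_div, div_self hc₀pos.ne']
  have hAv : A ≤ s * v / u := by
    have h1 : A = s / u * (1 / c₀) := by rw [hA]; ring
    have h2 : s * v / u = s / u * v := by ring
    rw [h1, h2]
    exact mul_le_mul_of_nonneg_left hcv.le (by positivity)
  refine ⟨w, hw1, ?_⟩
  have h1 : H a w ≤ H a (v + 1) := Hmono w (v + 1) (hv.trans hw1) hw4.le
  have h2 : A * (H a w - H a u) ≤ A * D := mul_le_mul_of_nonneg_left (by linarith) hA0.le
  have h3 : A * D ≤ s * v / u * D := mul_le_mul_of_nonneg_right hAv hD0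
  have h4 : H a w = A * H a w + B * H a w := by rw [← add_mul, hAB, one_mul]
  nlinarith

/-- **Existence of the free energy.** -/
theorem ex : Pool.Agent.H96.CP.S_ex := by
  intro a v ha hv
  have hv0 : 0 < v := lt_trans (by positivity) hv
  refine ⟨-H a v, fun N L hN hL hlim => ?_⟩
  have ne := GP_nonempty ha hv
  refine ⟨?_, ?_⟩
  · obtain ⟨_, ℓ, n, hn, hℓ, hZ, hw, rfl⟩ := ne
    filter_upwards [lower ha hℓ hn hZ hw hN hL hlim one_pos] with k hk
    exact hk.1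
  have hlim2 : Tendsto (fun k => (L k + 2 * a) ^ 2 / N k) atTop (𝓝 v) := by
    have h7 : Tendsto (fun k : ℕ => L k ^ 2 / N k * (1 + 2 * a / L k) ^ 2) atTop
        (𝓝 (v * (1 + 0) ^ 2)) := hlim.mul (((hL.const_div_atTop (2 * a)).const_add 1).pow 2)
    rw [show v * (1 + 0) ^ 2 = v by ring] at h7
    refine h7.congr' ?_
    filter_upwards [hL.eventually_gt_atTop 0] with k hk
    field_simp
  have hmain : Tendsto (fun k => lam a (L k) (N k)) atTop (𝓝 (H a v)) := by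
    rw [tendsto_order]
    constructor
    · intro y hy
      obtain ⟨y', hy'1, hy'2⟩ := exists_lt_of_lt_csSup ne hy
      obtain ⟨ℓ, n, hn, hℓ, hZ, hw, rfl⟩ := hy'1
      filter_upwards [lower ha hℓ hn hZ hw hN hL hlim (ε := (lam a ℓ n - y) / 2) (by linarith)]
        with k hk
      linarith [hk.2]
    · intro y hy
      obtain ⟨w, hw1, hw2⟩ := H_right ha hv (ε := (y - H a v) / 2) (by linarith)
      obtain ⟨_, ℓ, n, hn, hℓ, hZ, hw, rfl⟩ := ne
      filter_upwards [lower ha hℓ hn hZ hw hN hL hlim one_pos, hlim2.eventually_lt_const hw1,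
        hN.eventually_ge_atTop 1, hL.eventually_ge_atTop 0] with k hk1 hk2 hk3 hk4
      have := lam_le_H ha hk4 hk3 hk1.1 hk2
      linarith
  refine hmain.neg.congr fun k => ?_
  unfold lam
  rw [neg_div]

end Pool.Agent.H53.CP
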