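import Pool.Agent.H96.CP.Stm3
import Pool.Graph.R_seed8.H212R2.KLS.T1

/-!
# Project CP: isotropic strain is best (module S_iso)
-/

set_option autoImplicit false

open Real Set MeasureTheory Metric Filter Topology
open scoped ENNReal Nat ComplexConjugate Pointwise

namespace Pool.Agent.H53.CP

open Pool.Agent.H96.CP

variable {M : ℕ}

/-! ## Combinations -/

theorem pin_comb (s t : ℝ) (x y : {q : ZMod M × ZMod M // q ≠ 0} → ℂ) (q : ZMod M × ZMod M) :
    pin (s • x + t • y) q = (s : ℂ) * pin x q + (t : ℂ) * pin y q := by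
  unfold pin
  split_ifs with h
  · simp
  · simp [Pi.add_apply, Pi.smul_apply]

theorem E0_comb (s t : ℝ) (x y : {q : ZMod M × ZMod M // q ≠ 0} → ℂ) (q : ZMod M × ZMod M) :
    E0 (pin (s • x + t • y)) q = s * E0 (pin x) q + t * E0 (pin y) q := by
  unfold E0
  rw [pin_comb, pin_comb]
  have : (s : ℂ) * pin x (q + (1, 0)) + (t : ℂ) * pin y (q + (1, 0)) -
      ((s : ℂ) * pin x q + (t : ℂ) * pin y q) = (s : ℂ) * (pin x (q + (1, 0)) - pin x q) +
        (t : ℂ) * (pin y (q + (1, 0)) - pin y q) := by ring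
  rw [this, Complex.add_re, Complex.re_ofReal_mul, Complex.re_ofReal_mul]

theorem E1_comb (s t : ℝ) (x y : {q : ZMod M × ZMod M // q ≠ 0} → ℂ) (q : ZMod M × ZMod M) :
    E1 (pin (s • x + t • y)) q = s * E1 (pin x) q + t * E1 (pin y) q := by
  unfold E1
  rw [pin_comb, pin_comb]
  have : conj om * ((s : ℂ) * pin x (q + (0, 1)) + (t : ℂ) * pin y (q + (0, 1)) -
      ((s : ℂ) * pin x q + (t : ℂ) * pin y q)) = (s : ℂ) * (conj om * (pin x (q + (0, 1)) - pin x q)) +
        (t : ℂ) * (conj om * (pin y (q + (0, 1)) - pin y q)) := by ring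
  rw [this, Complex.add_re, Complex.re_ofReal_mul, Complex.re_ofReal_mul]

theorem E2_comb (s t : ℝ) (x y : {q : ZMod M × ZMod M // q ≠ 0} → ℂ) (q : ZMod M × ZMod M) :
    E2 (pin (s • x + t • y)) q = s * E2 (pin x) q + t * E2 (pin y) q := by
  unfold E2
  rw [pin_comb, pin_comb]
  have : conj (om - 1) * ((s : ℂ) * pin x (q + (0, 1)) + (t : ℂ) * pin y (q + (0, 1)) -
      ((s : ℂ) * pin x (q + (1, 0)) + (t : ℂ) * pin y (q + (1, 0)))) =
        (s : ℂ) * (conj (om - 1) * (pin x (q + (0, 1)) - pin x (q + (1, 0)))) +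
        (t : ℂ) * (conj (om - 1) * (pin y (q + (0, 1)) - pin y (q + (1, 0)))) := by ring
  rw [this, Complex.add_re, Complex.re_ofReal_mul, Complex.re_ofReal_mul]

theorem PT_comb {s t d₀ d₁ d₂ e₀ e₁ e₂ : ℝ} (hs : 0 ≤ s) (ht : 0 ≤ t)
    {x y : {q : ZMod M × ZMod M // q ≠ 0} → ℂ} (hx : x ∈ PT M d₀ d₁ d₂) (hy : y ∈ PT M e₀ e₁ e₂) :
    s • x + t • y ∈ PT M (s * d₀ + t * e₀) (s * d₁ + t * e₁) (s * d₂ + t * e₂) := by
  intro q
  obtain ⟨a0, a1, a2⟩ := hx q
  obtain ⟨b0, b1, b2⟩ := hy q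
  rw [E0_comb, E1_comb, E2_comb]
  refine ⟨?_, ?_, ?_⟩
  · nlinarith [mul_le_mul_of_nonneg_left a0 hs, mul_le_mul_of_nonneg_left b0 ht]
  · nlinarith [mul_le_mul_of_nonneg_left a1 hs, mul_le_mul_of_nonneg_left b1 ht]
  · nlinarith [mul_le_mul_of_nonneg_left a2 hs, mul_le_mul_of_nonneg_left b2 ht]

theorem continuous_pin (q : ZMod M × ZMod M) :
    Continuous fun w : {q : ZMod M × ZMod M // q ≠ 0} → ℂ => pin w q := by
  unfold pin
  split_ifs with h
  · exact continuous_const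
  · exact continuous_apply _

theorem isClosed_PT (d₀ d₁ d₂ : ℝ) : IsClosed (PT M d₀ d₁ d₂) := by
  have h : PT M d₀ d₁ d₂ = ⋂ q, ({w | -d₀ ≤ E0 (pin w) q} ∩ ({w | -d₁ ≤ E1 (pin w) q} ∩
      {w | -d₂ ≤ E2 (pin w) q})) := by
    ext w
    simp only [PT, mem_ofPred_eq, mem_inter_iff, mem_iInter]
  rw [h]
  refine isClosed_iInter fun q => IsClosed.inter ?_ (IsClosed.inter ?_ ?_)
  · exact isClosed_le continuous_const
      (Complex.continuous_re.comp ((continuous_pin _).sub (continuous_pin _)))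
  · exact isClosed_le continuous_const
      (Complex.continuous_re.comp (continuous_const.mul ((continuous_pin _).sub (continuous_pin _))))
  · exact isClosed_le continuous_const
      (Complex.continuous_re.comp (continuous_const.mul ((continuous_pin _).sub (continuous_pin _))))

theorem vt_comb (M : ℕ) [NeZero M] (t : ℝ) (ht0 : 0 < t) (ht1 : t < 1) (d₀ d₁ d₂ e₀ e₁ e₂ : ℝ) :
    vt M d₀ d₁ d₂ ^ (1 - t) * vt M e₀ e₁ e₂ ^ t ≤
      vt M ((1 - t) * d₀ + t * e₀) ((1 - t) * d₁ + t * e₁) ((1 - t) * d₂ + t * e₂) := by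
  have m1 := (isClosed_PT (M := M) d₀ d₁ d₂).measurableSet
  have m2 := (isClosed_PT (M := M) e₀ e₁ e₂).measurableSet
  have m3 := (isClosed_PT (M := M) ((1 - t) * d₀ + t * e₀) ((1 - t) * d₁ + t * e₁)
    ((1 - t) * d₂ + t * e₂)).measurableSet
  have h := Pool.Agent.H212R2.KLS.PL (volume : Measure ({q : ZMod M × ZMod M // q ≠ 0} → ℂ)) t ht0 ht1
    ((PT M d₀ d₁ d₂).indicator 1) ((PT M e₀ e₁ e₂).indicator 1)
    ((PT M ((1 - t) * d₀ + t * e₀) ((1 - t) * d₁ + t * e₁) ((1 - t) * d₂ + t * e₂)).indicator 1)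
    (measurable_one.indicator m1) (measurable_one.indicator m2) (measurable_one.indicator m3) ?_
  · rw [lintegral_indicator_one m1, lintegral_indicator_one m2, lintegral_indicator_one m3] at h
    exact h
  · intro x y
    by_cases hx : x ∈ PT M d₀ d₁ d₂
    · by_cases hy : y ∈ PT M e₀ e₁ e₂
      · have hxy := PT_comb (s := 1 - t) (t := t) (by linarith) ht0.le hx hy
        rw [indicator_of_mem hx, indicator_of_mem hy, indicator_of_mem hxy]
        simp
      · rw [indicator_of_notMem hy, ENNReal.zero_rpow_of_pos ht0, mul_zero]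
        exact zero_le
    · rw [indicator_of_notMem hx, ENNReal.zero_rpow_of_pos (by linarith), zero_mul]
      exact zero_le

/-! ## Rotation -/

theorem om_norm : ‖om‖ = 1 := by
  have h3 : √3 * √3 = 3 := Real.mul_self_sqrt (by norm_num)
  have : ‖om‖ ^ 2 = 1 := by
    rw [← Complex.normSq_eq_norm_sq, Complex.normSq_apply]
    simp only [om]
    nlinarith
  nlinarith [norm_nonneg om]

theorem conj_om : conj om = 1 - om := by
  apply Complex.ext
  · simp [om]; norm_num
  · simp [om]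

theorem conj_om1 : conj (om - 1) = -om := by
  apply Complex.ext
  · simp [om]; norm_num
  · simp [om]

theorem conj_om_mul : conj om * om = 1 := by
  rw [mul_comm, Complex.mul_conj, Complex.normSq_eq_norm_sq, om_norm]
  simp

theorem om_sq : om * om = om - 1 := by
  have h := conj_om_mul
  rw [conj_om] at h
  linear_combination -h

/-- the rotation of the torus -/
def gE (M : ℕ) : (ZMod M × ZMod M) ≃ (ZMod M × ZMod M) where
  toFun q := (-q.2, q.1 + q.2)
  invFun q := (q.1 + q.2, -q.1)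
  left_inv q := by ext <;> simp
  right_inv q := by ext <;> simp

theorem gE_symm_apply (q : ZMod M × ZMod M) : (gE M).symm q = (q.1 + q.2, -q.1) := rfl

def gS (M : ℕ) : {q : ZMod M × ZMod M // q ≠ 0} ≃ {q : ZMod M × ZMod M // q ≠ 0} :=
  (gE M).subtypeEquiv fun q => by
    constructor
    · intro h h'
      apply h
      have : q = (gE M).symm (gE M q) := ((gE M).symm_apply_apply q).symm
      rw [this, h', gE_symm_apply]
      simp
    · intro h h'
      apply h
      rw [h']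
      simp [gE]

/-- rotation of a displacement field -/
noncomputable def rot (w : {q : ZMod M × ZMod M // q ≠ 0} → ℂ) : {q : ZMod M × ZMod M // q ≠ 0} → ℂ :=
  fun q => om * w ((gS M).symm q)

theorem pin_rot (w : {q : ZMod M × ZMod M // q ≠ 0} → ℂ) (q : ZMod M × ZMod M) :
    pin (rot w) q = om * pin w ((gE M).symm q) := by
  unfold pin rot
  by_cases h : q = 0
  · subst h
    simp [gE_symm_apply]
  · have h' : (gE M).symm q ≠ 0 := ((gS M).symm ⟨q, h⟩).2
    rw [dif_neg h, dif_neg h']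
    rfl

theorem E0_rot (w : {q : ZMod M × ZMod M // q ≠ 0} → ℂ) (q : ZMod M × ZMod M) :
    E0 (pin (rot w)) q = E2 (pin w) ((gE M).symm q - (0, 1)) := by
  unfold E0 E2
  rw [pin_rot, pin_rot, conj_om1]
  have e1 : (gE M).symm (q + (1, 0)) = (gE M).symm q - (0, 1) + (1, 0) := by
    simp only [gE_symm_apply]
    ext
    · simp; ring
    · simp; ring
  have e2 : (gE M).symm q - (0, 1) + (0, 1) = (gE M).symm q := by abel
  rw [e1, e2]
  congr 1
  ring

theorem E1_rot (w : {q : ZMod M × ZMod M // q ≠ 0} → ℂ) (q : ZMod M × ZMod M) :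
    E1 (pin (rot w)) q = E0 (pin w) ((gE M).symm q) := by
  unfold E0 E1
  rw [pin_rot, pin_rot]
  have e1 : (gE M).symm (q + (0, 1)) = (gE M).symm q + (1, 0) := by
    simp only [gE_symm_apply]
    ext
    · simp; ring
    · simp
  rw [e1]
  congr 1
  linear_combination (pin w ((gE M).symm q + (1, 0)) - pin w ((gE M).symm q)) * conj_om_mul

theorem E2_rot (w : {q : ZMod M × ZMod M // q ≠ 0} → ℂ) (q : ZMod M × ZMod M) :
    E2 (pin (rot w)) q = E1 (pin w) ((gE M).symm q + (1, -1)) := by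
  unfold E1 E2
  rw [pin_rot, pin_rot]
  have e1 : (gE M).symm (q + (0, 1)) = (gE M).symm q + (1, -1) + (0, 1) := by
    simp only [gE_symm_apply]
    ext
    · simp; ring
    · simp
  have e2 : (gE M).symm (q + (1, 0)) = (gE M).symm q + (1, -1) := by
    simp only [gE_symm_apply]
    ext
    · simp; ring
    · simp; ring
  rw [e1, e2, conj_om1, conj_om]
  congr 1
  linear_combination -(pin w ((gE M).symm q + (1, -1) + (0, 1)) -
    pin w ((gE M).symm q + (1, -1))) * om_sq

theorem rot_mem {d₀ d₁ d₂ : ℝ} {w : {q : ZMod M × ZMod M // q ≠ 0} → ℂ} (hw : w ∈ PT M d₀ d₁ d₂) :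
    rot w ∈ PT M d₂ d₀ d₁ := by
  intro q
  rw [E0_rot, E1_rot, E2_rot]
  exact ⟨(hw _).2.2, (hw _).1, (hw _).2.1⟩

theorem rot_preserving (M : ℕ) [NeZero M] :
    MeasurePreserving (rot (M := M)) volume volume := by
  obtain ⟨a, ha⟩ : ∃ a : Circle, (a : ℂ) = om := ⟨⟨om, by
    simpa [Submonoid.unitSphere] using om_norm⟩, rfl⟩
  have h1 : MeasurePreserving (fun (y : {q : ZMod M × ZMod M // q ≠ 0} → ℂ) q => rotation a (y q))
      volume volume := volume_preserving_pi fun _ => (rotation a).measurePreserving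
  have h2 := volume_measurePreserving_piCongrLeft
    (fun _ : {q : ZMod M × ZMod M // q ≠ 0} => ℂ) (gS M)
  have h3 := h1.comp h2
  convert h3 using 1
  funext w q
  simp only [rot, Function.comp_apply, rotation_apply, ha]
  congr 1
  have h4 := Equiv.piCongrLeft_apply_apply (fun _ : {q : ZMod M × ZMod M // q ≠ 0} => ℂ)
    (gS M) w ((gS M).symm q)
  rw [Equiv.apply_symm_apply] at h4
  exact h4.symm

theorem vt_rot (M : ℕ) [NeZero M] (d₀ d₁ d₂ : ℝ) : vt M d₀ d₁ d₂ ≤ vt M d₂ d₀ d₁ := by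
  unfold vt
  rw [← (rot_preserving M).measure_preimage (isClosed_PT d₂ d₀ d₁).measurableSet.nullMeasurableSet]
  exact measure_mono fun w hw => rot_mem hw

theorem iso : S_iso := by
  intro M _
  refine ⟨fun d₀ d₁ d₂ => ?_, fun t ht => ?_⟩
  · have e1 := vt_rot M d₀ d₁ d₂
    have e2 := vt_rot M d₂ d₀ d₁
    -- `d₀ d₁ d₂`, `d₂ d₀ d₁`, `d₁ d₂ d₀`
    set V := vt M d₀ d₁ d₂ with hV
    have p1 := vt_comb M (1 / 2) (by norm_num) (by norm_num) d₀ d₁ d₂ d₂ d₀ d₁
    have q1 : V ≤ vt M ((1 - 1 / 2) * d₀ + 1 / 2 * d₂) ((1 - 1 / 2) * d₁ + 1 / 2 * d₀)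
        ((1 - 1 / 2) * d₂ + 1 / 2 * d₁) := by
      refine le_trans ?_ p1
      calc V = V ^ ((1 : ℝ) - 1 / 2) * V ^ ((1 : ℝ) / 2) := by
            rw [← ENNReal.rpow_add_of_nonneg _ _ (by norm_num) (by norm_num)]
            norm_num
        _ ≤ _ := by gcongr
    have p2 := vt_comb M (1 / 3) (by norm_num) (by norm_num)
      ((1 - 1 / 2) * d₀ + 1 / 2 * d₂) ((1 - 1 / 2) * d₁ + 1 / 2 * d₀)
        ((1 - 1 / 2) * d₂ + 1 / 2 * d₁) d₁ d₂ d₀
    have q2 : V ≤ vt M ((1 - 1 / 3) * ((1 - 1 / 2) * d₀ + 1 / 2 * d₂) + 1 / 3 * d₁)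
        ((1 - 1 / 3) * ((1 - 1 / 2) * d₁ + 1 / 2 * d₀) + 1 / 3 * d₂)
        ((1 - 1 / 3) * ((1 - 1 / 2) * d₂ + 1 / 2 * d₁) + 1 / 3 * d₀) := by
      refine le_trans ?_ p2
      calc V = V ^ ((1 : ℝ) - 1 / 3) * V ^ ((1 : ℝ) / 3) := by
            rw [← ENNReal.rpow_add_of_nonneg _ _ (by norm_num) (by norm_num)]
            norm_num
        _ ≤ _ := by
            gcongr
            exact e1.trans e2
    convert q2 using 2 <;> ring
  · have hsmul : PT M t t t = t • PT M 1 1 1 := by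
      ext w
      rw [Set.mem_smul_set_iff_inv_smul_mem₀ ht.ne']
      have hti : 0 < t⁻¹ := inv_pos.mpr ht
      have key : ∀ q, E0 (pin (t⁻¹ • w)) q = t⁻¹ * E0 (pin w) q ∧
          E1 (pin (t⁻¹ • w)) q = t⁻¹ * E1 (pin w) q ∧ E2 (pin (t⁻¹ • w)) q = t⁻¹ * E2 (pin w) q := by
        intro q
        have e0 := E0_comb t⁻¹ 0 w w q
        have e1 := E1_comb t⁻¹ 0 w w q
        have e2 := E2_comb t⁻¹ 0 w w q
        simp only [zero_smul, add_zero, zero_mul] at e0 e1 e2
        exact ⟨e0, e1, e2⟩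
      have aux : ∀ a : ℝ, -t ≤ a ↔ -1 ≤ t⁻¹ * a := by
        intro a
        rw [inv_mul_eq_div, le_div_iff₀ ht]
        constructor <;> intro h <;> linarith
      constructor
      · intro h q
        obtain ⟨k0, k1, k2⟩ := key q
        rw [k0, k1, k2, ← aux, ← aux, ← aux]
        exact h q
      · intro h q
        obtain ⟨k0, k1, k2⟩ := key q
        have h' := h q
        rw [k0, k1, k2, ← aux, ← aux, ← aux] at h'
        exact h'
    have hcard : Fintype.card {q : ZMod M × ZMod M // q ≠ 0} = M ^ 2 - 1 := by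
      rw [Fintype.card_subtype_compl (fun q : ZMod M × ZMod M => q = 0), Fintype.card_prod,
        ZMod.card, Fintype.card_subtype_eq, pow_two]
    have hfin : Module.finrank ℝ ({q : ZMod M × ZMod M // q ≠ 0} → ℂ) = 2 * (M ^ 2 - 1) := by
      rw [Module.finrank_pi_fintype]
      simp only [Complex.finrank_real_complex, Finset.sum_const, Finset.card_univ, smul_eq_mul]
      rw [hcard, mul_comm]
    unfold vt
    rw [hsmul, Measure.addHaar_smul, hfin, abs_of_nonneg (by positivity)]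

end Pool.Agent.H53.CP
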